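import Pool.Agent.Q17.LS.Nf
import Pool.Agent.Y667.BKK.Main
import Pool.Agent.Y667.BK.Fin

/-! The Bloch-Kato Selmer group over multiquadratic fields for the curves with a rational cyclic
subgroup of order 4. -/

set_option autoImplicit false

namespace Pool.Agent.Q17.LS.NF

open Finset WeierstrassCurve
open Pool.Agent.TH841.SH.D (Sha Pt)
open Pool.Agent.W307.RT (Sh HasT Cv)
open Pool.Agent.Q17.IG (Lk Q4)
open Pool.Agent.Q97.PT (rk EK)

open Classical in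
/-- **one curve over one multiquadratic field** -/
theorem field4 {m : ℕ} {d : Fin m → ℤ} (hd : ∀ i, d i ≠ 0) {c : ℤ × ℤ}
    (h : Q4 (Pool.Agent.Y667.QK.TwS d) c) (F : Type) [Field F] [NumberField F]
    (hF : Pool.Agent.TH841.NF.Gen F d) :
    rk F c = 0 ∧ Finite (Pool.Agent.TH841.NF.EF c.1 c.2 F).toAffine.Point ∧
      Pool.Agent.Y723.QT.Kl (Pool.Agent.TH841.NF.D.Sha (Pool.Agent.TH841.NF.EF c.1 c.2 F))
        (m + 1) := by
  obtain ⟨c', hS, hT, e, q, u, s, L⟩ := h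
  have h1 : rk F c' = 0 := (Pool.Agent.Y667.QK.field_of hd L.D' hT hS F hF).1
  have h0 : rk F c = 0 := by rw [rkF_eq L F, h1]
  have he : e ^ 3 + c.1 * e + c.2 = 0 := by
    rw [L.hc1, L.hc2]
    ring
  have hfg := Pool.Agent.Y723.QT.fg_EF (F := F) L.hD he
  refine ⟨h0, Pool.Agent.Y667.BK.finite_of_rk (Module.Finite.iff_addGroup_fg.1 hfg) h0, ?_⟩
  obtain ⟨x, hx, hgen⟩ := hF
  refine Pool.Agent.Y723.QT.base_kl (r := x) (d := fun i => (d i : ℚ)) (fun i => ?_)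
    (fun i => by exact_mod_cast hd i) hgen fun T => ?_
  · rw [hx i, map_intCast]
  · rw [Pool.Agent.TH841.NF.tw_Sh]
    intro k y hy
    rw [pow_one, two_nsmul]
    exact (Pool.Agent.Q17.QF.zeroD L hT (prod_ne_zero_iff.2 fun i _ => hd i) (hS T).1
      (hS T).2).2 k y hy

open Classical in
/-- the Bloch-Kato Selmer group is zero -/
theorem bk4 {m : ℕ} {d : Fin m → ℤ} (hd : ∀ i, d i ≠ 0) {c : ℤ × ℤ}
    (h : Q4 (Pool.Agent.Y667.QK.TwS d) c) (F : Type) [Field F] [NumberField F]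
    (hF : Pool.Agent.TH841.NF.Gen F d) :
    Finite (Pool.Agent.TH841.NF.EF c.1 c.2 F).toAffine.Point ∧
      ∀ x : Pool.Agent.Y667.BKK.H1f (Pool.Agent.TH841.NF.EF c.1 c.2 F), x = 0 := by
  obtain ⟨-, h1, h2⟩ := field4 hd h F hF
  exact ⟨h1, Pool.Agent.Y667.BKK.h1f_zero h1 (m + 1) h2⟩

end Pool.Agent.Q17.LS.NF
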