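import Pool.Agent.Q17.LS.Cnt

/-! The elements of order two of the Tate-Shafarevich group, for almost all pairs of a box. -/

set_option autoImplicit false

namespace Pool.Agent.Q17.LS

open Finset WeierstrassCurve
open Pool.Agent.TH841.SH.D
open Pool.Agent.TH841.LS (WI big_loglog)

lemma log_seven : Real.log 7 ≤ 2 := by
  rw [Real.log_le_iff_le_exp (by norm_num)]
  have h1 := Real.exp_one_gt_d9
  have h2 : Real.exp 2 = Real.exp 1 * Real.exp 1 := by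
    rw [← Real.exp_add]
    norm_num
  rw [h2]
  nlinarith

lemma log_gt {x : ℝ} (hx : 3 ≤ x) : 1 < Real.log x := by
  have h4 : Real.exp 1 < x := lt_of_lt_of_le (Real.exp_one_lt_d9.trans (by norm_num)) hx
  have := Real.log_lt_log (Real.exp_pos 1) h4
  rwa [Real.log_exp] at this

lemma ll_cmp {x y : ℝ} (hx : 3 ≤ x) (hy : 3 ≤ y) (h : x ≤ y ^ 7) :
    Real.log (Real.log x) ≤ Real.log (Real.log y) + 2 := by
  have h1 := log_gt hx
  have h2 := log_gt hy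
  have h3 : Real.log x ≤ 7 * Real.log y := by
    have h4 := Real.log_le_log (by linarith) h
    rw [Real.log_pow] at h4
    exact_mod_cast h4
  have h4 : Real.log (Real.log x) ≤ Real.log (7 * Real.log y) :=
    Real.log_le_log (by linarith) h3
  rw [Real.log_mul (by norm_num) (by linarith)] at h4
  have := log_seven
  linarith

lemma ok_of {δ X H : ℝ} {W : WeierstrassCurve ℚ} (hX : 3 ≤ X) (hH : 3 ≤ H) (h1 : X ≤ H ^ 7)
    (h2 : H ≤ X ^ 7) (hδ : 0 < δ) (hb : 3 + δ ≤ δ / 2 * Real.log (Real.log H))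
    (h : Ok (δ / 2) X W) : Ok δ H W := by
  obtain ⟨k, hk, hc⟩ := h
  refine ⟨k, ?_, hc⟩
  have h3 := ll_cmp hX hH h1
  have h4 := ll_cmp hH hX h2
  obtain ⟨a, ha⟩ : ∃ a, a = Real.log (Real.log X) := ⟨_, rfl⟩
  obtain ⟨b, hb'⟩ : ∃ b, b = Real.log (Real.log H) := ⟨_, rfl⟩
  rw [← ha, ← hb'] at h3 h4
  rw [← ha, abs_le] at hk
  rw [← hb'] at hb ⊢
  rw [abs_le]
  obtain ⟨k1, k2⟩ := hk
  constructor <;> nlinarith

/-- the reciprocals of squares -/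
lemma sum_sq (G N : ℕ) (hG : 0 < G) (hGN : G ≤ N) (a b : ℝ) (ha : 0 ≤ a) (hb : 0 ≤ b) :
    ∑ g ∈ Ioc 0 N, (if g ≤ G then a else b) * ((g : ℝ) ^ 2)⁻¹ ≤ 2 * a + b / G := by
  rw [← sum_Ioc_consecutive _ (Nat.zero_le G) hGN]
  apply add_le_add
  · have h1 : ∑ g ∈ Ioc 0 G, (if g ≤ G then a else b) * ((g : ℝ) ^ 2)⁻¹ =
        a * ∑ g ∈ Ioc 0 G, ((g : ℝ) ^ 2)⁻¹ := by
      rw [mul_sum]
      apply sum_congr rfl
      intro g hg
      rw [if_pos (mem_Ioc.1 hg).2]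
    rw [h1]
    have h2 := sum_Ioo_inv_sq_le (α := ℝ) 0 (G + 1)
    have h3 : Ioo 0 (G + 1) = Ioc 0 G := by
      ext x
      rw [mem_Ioo, mem_Ioc]
      omega
    rw [h3] at h2
    have h4 : (2 : ℝ) / ((0 : ℕ) + 1) = 2 := by norm_num
    rw [h4] at h2
    nlinarith
  · have h1 : ∑ g ∈ Ioc G N, (if g ≤ G then a else b) * ((g : ℝ) ^ 2)⁻¹ =
        b * ∑ g ∈ Ioc G N, ((g : ℝ) ^ 2)⁻¹ := by
      rw [mul_sum]
      apply sum_congr rfl
      intro g hg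
      rw [if_neg (not_le.2 (mem_Ioc.1 hg).1)]
    rw [h1]
    have h2 := sum_Ioc_inv_sq_le_sub (α := ℝ) hG.ne' hGN
    have h3 : (0 : ℝ) ≤ (N : ℝ)⁻¹ := by positivity
    have h4 : ∑ g ∈ Ioc G N, ((g : ℝ) ^ 2)⁻¹ ≤ (G : ℝ)⁻¹ := by linarith
    calc b * ∑ g ∈ Ioc G N, ((g : ℝ) ^ 2)⁻¹ ≤ b * (G : ℝ)⁻¹ := mul_le_mul_of_nonneg_left h4 hb
      _ = b / G := by rw [div_eq_mul_inv]

open Classical in
/-- the coprime pairs -/
noncomputable def Tg (δ : ℝ) (N H g : ℕ) : Finset (ℤ × ℤ) :=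
  (Icc (-((N / g : ℕ) : ℤ)) ((N / g : ℕ) : ℤ) ×ˢ
    Icc (-((N / g : ℕ) : ℤ)) ((N / g : ℕ) : ℤ)).filter (fun t : ℤ × ℤ => IsCoprime t.1 t.2 ∧
    ¬ Ok δ (H : ℝ) (WI ((g : ℤ) * t.1) ((g : ℤ) * t.2)))

lemma width {N g : ℕ} (hg : 0 < g) (hgN : g ≤ N) :
    ((2 * (N / g) + 1 : ℕ) : ℝ) ^ 2 ≤ 9 * ((N : ℝ) ^ 2 * ((g : ℝ) ^ 2)⁻¹) := by
  have hg0 : (0 : ℝ) < g := by exact_mod_cast hg
  have h1 : ((N / g : ℕ) : ℝ) ≤ (N : ℝ) / g := Nat.cast_div_le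
  have h2 : (1 : ℝ) ≤ (N : ℝ) / g := by
    rw [one_le_div hg0]
    exact_mod_cast hgN
  have h3 : ((2 * (N / g) + 1 : ℕ) : ℝ) ≤ 3 * ((N : ℝ) / g) := by
    push_cast
    linarith
  calc ((2 * (N / g) + 1 : ℕ) : ℝ) ^ 2 ≤ (3 * ((N : ℝ) / g)) ^ 2 :=
        pow_le_pow_left₀ (Nat.cast_nonneg _) h3 2
    _ = _ := by
        field_simp
        ring

lemma Tg_card {δ : ℝ} {N H g : ℕ} (hg : 0 < g) (hgN : g ≤ N) :
    ((Tg δ N H g).card : ℝ) ≤ 9 * ((N : ℝ) ^ 2 * ((g : ℝ) ^ 2)⁻¹) := by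
  classical
  refine le_trans ?_ (width hg hgN)
  have h1 : (Tg δ N H g).card ≤ (2 * (N / g) + 1) * (2 * (N / g) + 1) := by
    unfold Tg
    refine (card_filter_le _ _).trans (le_of_eq ?_)
    rw [card_product, Int.card_Icc]
    have h2 : (((N / g : ℕ) : ℤ) + 1 - -((N / g : ℕ) : ℤ)).toNat = 2 * (N / g) + 1 := by omega
    rw [h2]
  calc ((Tg δ N H g).card : ℝ) ≤ (((2 * (N / g) + 1) * (2 * (N / g) + 1) : ℕ) : ℝ) :=
        Nat.cast_le.2 h1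
    _ = _ := by rw [Nat.cast_mul, sq]

open Classical in
/-- the decomposition by the greatest common divisor -/
lemma decomp (δ : ℝ) (N H : ℕ) :
    ((Icc (-(N : ℤ)) N ×ˢ Icc (-(N : ℤ)) N).filter (fun p : ℤ × ℤ => p ≠ 0 ∧
      ¬ Ok δ (H : ℝ) (WI p.1 p.2))).card ≤ ∑ g ∈ Ioc 0 N, (Tg δ N H g).card := by
  have hsub : (Icc (-(N : ℤ)) N ×ˢ Icc (-(N : ℤ)) N).filter (fun p : ℤ × ℤ => p ≠ 0 ∧
      ¬ Ok δ (H : ℝ) (WI p.1 p.2)) ⊆ (Ioc 0 N).biUnion (fun g => (Tg δ N H g).image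
        (fun t : ℤ × ℤ => ((g : ℤ) * t.1, (g : ℤ) * t.2))) := by
    intro p hp
    rw [mem_filter, mem_product, mem_Icc, mem_Icc] at hp
    obtain ⟨⟨⟨h1, h2⟩, h3, h4⟩, h5, h6⟩ := hp
    have hg : 0 < Int.gcd p.1 p.2 := by
      rw [Int.gcd_pos_iff]
      by_contra hcon
      rw [not_or, not_not, not_not] at hcon
      exact h5 (Prod.ext hcon.1 hcon.2)
    obtain ⟨g, u, v, hg0, hc, e1, e2⟩ := Int.exists_gcd_one' hg
    have n1 : p.1.natAbs = u.natAbs * g := by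
      rw [e1, Int.natAbs_mul, Int.natAbs_natCast]
    have n2 : p.2.natAbs = v.natAbs * g := by
      rw [e2, Int.natAbs_mul, Int.natAbs_natCast]
    have b1 : p.1.natAbs ≤ N := by omega
    have b2 : p.2.natAbs ≤ N := by omega
    have u1 : u.natAbs ≤ N / g := by
      rw [Nat.le_div_iff_mul_le hg0, ← n1]
      exact b1
    have v1 : v.natAbs ≤ N / g := by
      rw [Nat.le_div_iff_mul_le hg0, ← n2]
      exact b2
    have hgN : g ≤ N := by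
      have h7 : u ≠ 0 ∨ v ≠ 0 := by
        by_contra hcon
        rw [not_or, not_not, not_not] at hcon
        apply h5
        apply Prod.ext
        · rw [e1, hcon.1, zero_mul]
          rfl
        · rw [e2, hcon.2, zero_mul]
          rfl
      rcases h7 with h7 | h7
      · have h8 : 1 ≤ u.natAbs := Int.natAbs_pos.2 h7
        have h9 : g ≤ u.natAbs * g := Nat.le_mul_of_pos_left g h8
        omega
      · have h8 : 1 ≤ v.natAbs := Int.natAbs_pos.2 h7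
        have h9 : g ≤ v.natAbs * g := Nat.le_mul_of_pos_left g h8
        omega
    have f1 : (g : ℤ) * u = p.1 := by rw [e1, mul_comm]
    have f2 : (g : ℤ) * v = p.2 := by rw [e2, mul_comm]
    rw [mem_biUnion]
    refine ⟨g, mem_Ioc.2 ⟨hg0, hgN⟩, mem_image.2 ⟨(u, v), ?_, Prod.ext f1 f2⟩⟩
    unfold Tg
    rw [mem_filter, mem_product, mem_Icc, mem_Icc]
    refine ⟨⟨⟨?_, ?_⟩, ?_, ?_⟩, Int.isCoprime_iff_gcd_eq_one.2 hc, ?_⟩
    · change -((N / g : ℕ) : ℤ) ≤ u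
      omega
    · change u ≤ ((N / g : ℕ) : ℤ)
      omega
    · change -((N / g : ℕ) : ℤ) ≤ v
      omega
    · change v ≤ ((N / g : ℕ) : ℤ)
      omega
    · change ¬ Ok δ (H : ℝ) (WI ((g : ℤ) * u) ((g : ℤ) * v))
      rw [f1, f2]
      exact h6
  refine (card_le_card hsub).trans (card_biUnion_le.trans (sum_le_sum fun g _ => card_image_le))

open Classical in
/-- **almost all pairs of a box** -/
theorem box (δ ε : ℝ) (hδ : 0 < δ) (hε : 0 < ε) : ∃ N0 : ℕ, ∀ N H : ℕ, N0 ≤ N →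
    N ^ 6 ≤ 14 ^ 6 * H → H ≤ N ^ 6 →
    (((Icc (-(N : ℤ)) N ×ˢ Icc (-(N : ℤ)) N).filter (fun p : ℤ × ℤ => p ≠ 0 ∧
      ¬ Ok δ (H : ℝ) (WI p.1 p.2))).card : ℝ) ≤ ε * (N : ℝ) ^ 2 := by
  obtain ⟨G, hG⟩ : ∃ G : ℕ, 18 / ε + 1 ≤ G := by
    obtain ⟨G, hG⟩ := exists_nat_gt (18 / ε + 1)
    exact ⟨G, hG.le⟩
  have hG1 : (1 : ℝ) ≤ G := by
    have : 0 < 18 / ε := by positivity
    linarith
  have hG0 : 0 < G := by exact_mod_cast (zero_lt_one.trans_le hG1)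
  have hGe : 18 / ε ≤ G := by linarith
  have hal : ∀ g : ℕ, ∃ Y0 : ℕ, 0 < g → ∀ Y : ℕ, Y0 ≤ Y →
      (((Icc (-(Y : ℤ)) Y ×ˢ Icc (-(Y : ℤ)) Y).filter (fun t : ℤ × ℤ => IsCoprime t.1 t.2 ∧
        ¬ Ok (δ / 2) ((2 * Y + 1 : ℕ) : ℝ) (WI ((g : ℤ) * t.1) ((g : ℤ) * t.2)))).card : ℝ) ≤
        ε / 36 * ((2 * Y + 1 : ℕ) : ℝ) ^ 2 := by
    intro g
    by_cases hg : 0 < g
    · obtain ⟨Y0, h⟩ := almost (g : ℤ) (by exact_mod_cast hg.ne') (δ / 2) (ε / 36) (by positivity)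
        (by positivity)
      exact ⟨Y0, fun _ => h⟩
    · exact ⟨0, fun h => absurd h hg⟩
  choose Y0 hY0 using hal
  obtain ⟨M3, hM3⟩ := big_loglog (δ / 2) (3 + δ) (by positivity)
  obtain ⟨Ys, hYs⟩ : ∃ Ys, Ys = ∑ g ∈ range (G + 1), Y0 g := ⟨_, rfl⟩
  obtain ⟨K, hK⟩ : ∃ K : ℕ, K = 42 ^ 6 := ⟨_, rfl⟩
  refine ⟨G * (Ys + 1) + G * (G ^ 6 + 1) + 14 * (M3 + K + 3), fun N H hN hNH hHN => ?_⟩
  have hN1 : G * (Ys + 1) ≤ N := by omega
  have hN2 : G * (G ^ 6 + 1) ≤ N := by omega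
  have hN3 : 14 * (M3 + K + 3) ≤ N := by omega
  have hGN : G ≤ N := by
    have : G * 1 ≤ G * (Ys + 1) := Nat.mul_le_mul_left _ (by omega)
    omega
  have hH1 : M3 + K + 3 ≤ H := by
    have h1 : (14 * (M3 + K + 3)) ^ 6 ≤ 14 ^ 6 * H := (Nat.pow_le_pow_left hN3 6).trans hNH
    rw [mul_pow] at h1
    have h2 : (M3 + K + 3) ^ 6 ≤ H := Nat.le_of_mul_le_mul_left h1 (by positivity)
    exact (Nat.le_self_pow (by norm_num) _).trans h2
  have hb := hM3 H (by omega)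
  have key : ∀ g ∈ Ioc 0 N, ((Tg δ N H g).card : ℝ) ≤
      (if g ≤ G then ε / 4 else 9) * ((g : ℝ) ^ 2)⁻¹ * (N : ℝ) ^ 2 := by
    intro g hg
    obtain ⟨hg0, hgN⟩ := mem_Ioc.1 hg
    by_cases hgG : g ≤ G
    · rw [if_pos hgG]
      obtain ⟨Y, hY⟩ : ∃ Y, Y = N / g := ⟨_, rfl⟩
      have y1 : Ys ≤ Y := by
        rw [hY, Nat.le_div_iff_mul_le hg0]
        calc Ys * g ≤ (Ys + 1) * G := Nat.mul_le_mul (by omega) hgG
          _ = G * (Ys + 1) := mul_comm _ _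
          _ ≤ N := hN1
      have y2 : G ^ 6 + 1 ≤ Y := by
        rw [hY, Nat.le_div_iff_mul_le hg0]
        calc (G ^ 6 + 1) * g ≤ (G ^ 6 + 1) * G := Nat.mul_le_mul_left _ hgG
          _ = G * (G ^ 6 + 1) := mul_comm _ _
          _ ≤ N := hN2
      have y3 : Y0 g ≤ Y := by
        refine le_trans ?_ y1
        rw [hYs]
        exact single_le_sum (f := Y0) (fun _ _ => Nat.zero_le _) (mem_range.2 (by omega))
      have h1 := hY0 g hg0 Y y3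
      obtain ⟨X, hX⟩ : ∃ X, X = 2 * Y + 1 := ⟨_, rfl⟩
      rw [← hX] at h1
      have x3 : 3 ≤ X := by omega
      have xN : X ≤ 3 * N := by
        have : Y ≤ N := by
          rw [hY]
          exact Nat.div_le_self _ _
        omega
      have x1 : X ≤ H ^ 7 := by
        calc X ≤ X ^ 6 := Nat.le_self_pow (by norm_num) _
          _ ≤ (3 * N) ^ 6 := Nat.pow_le_pow_left xN 6
          _ = 3 ^ 6 * N ^ 6 := mul_pow _ _ _
          _ ≤ 3 ^ 6 * (14 ^ 6 * H) := Nat.mul_le_mul_left _ hNH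
          _ = K * H := by
              rw [hK]
              ring
          _ ≤ H * H := Nat.mul_le_mul_right _ (by omega)
          _ = H ^ 2 := by ring
          _ ≤ H ^ 7 := Nat.pow_le_pow_right (by omega) (by norm_num)
      have x2 : H ≤ X ^ 7 := by
        have h2 : N ≤ G * X := by
          have h3 : N < g * (Y + 1) := by
            rw [hY]
            exact Nat.lt_mul_div_succ N hg0
          calc N ≤ g * (Y + 1) := h3.le
            _ ≤ G * X := Nat.mul_le_mul hgG (by omega)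
        calc H ≤ N ^ 6 := hHN
          _ ≤ (G * X) ^ 6 := Nat.pow_le_pow_left h2 6
          _ = G ^ 6 * X ^ 6 := mul_pow _ _ _
          _ ≤ X * X ^ 6 := Nat.mul_le_mul_right _ (by omega)
          _ = X ^ 7 := by ring
      have hsub : Tg δ N H g ⊆ (Icc (-(Y : ℤ)) Y ×ˢ Icc (-(Y : ℤ)) Y).filter
          (fun t : ℤ × ℤ => IsCoprime t.1 t.2 ∧
          ¬ Ok (δ / 2) (X : ℝ) (WI ((g : ℤ) * t.1) ((g : ℤ) * t.2))) := by
        intro t ht
        unfold Tg at ht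
        rw [mem_filter, ← hY] at ht
        rw [mem_filter]
        refine ⟨ht.1, ht.2.1, fun hok => ht.2.2 ?_⟩
        refine ok_of (by exact_mod_cast x3) ?_ (by exact_mod_cast x1) (by exact_mod_cast x2) hδ
          hb hok
        have : 3 ≤ H := by omega
        exact_mod_cast this
      have h2 : ((Tg δ N H g).card : ℝ) ≤ ε / 36 * (X : ℝ) ^ 2 :=
        (Nat.cast_le.2 (card_le_card hsub)).trans h1
      have h3 := width hg0 hgN
      rw [← hY, ← hX] at h3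
      calc ((Tg δ N H g).card : ℝ) ≤ ε / 36 * (X : ℝ) ^ 2 := h2
        _ ≤ ε / 36 * (9 * ((N : ℝ) ^ 2 * ((g : ℝ) ^ 2)⁻¹)) :=
            mul_le_mul_of_nonneg_left h3 (by positivity)
        _ = _ := by ring
    · rw [if_neg hgG]
      refine (Tg_card hg0 hgN).trans (le_of_eq ?_)
      ring
  have h1 : (((Icc (-(N : ℤ)) N ×ˢ Icc (-(N : ℤ)) N).filter (fun p : ℤ × ℤ => p ≠ 0 ∧
      ¬ Ok δ (H : ℝ) (WI p.1 p.2))).card : ℝ) ≤ ∑ g ∈ Ioc 0 N, ((Tg δ N H g).card : ℝ) := by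
    exact_mod_cast decomp δ N H
  have h2 := sum_sq G N hG0 hGN (ε / 4) 9 (by positivity) (by norm_num)
  have h3 : 9 / (G : ℝ) ≤ ε / 2 := by
    rw [div_le_iff₀ (by linarith)]
    have h4 : 18 / ε * ε ≤ G * ε := mul_le_mul_of_nonneg_right hGe hε.le
    rw [div_mul_cancel₀ _ hε.ne'] at h4
    linarith
  calc _ ≤ ∑ g ∈ Ioc 0 N, ((Tg δ N H g).card : ℝ) := h1
    _ ≤ ∑ g ∈ Ioc 0 N, (if g ≤ G then ε / 4 else 9) * ((g : ℝ) ^ 2)⁻¹ * (N : ℝ) ^ 2 :=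
        sum_le_sum key
    _ = (∑ g ∈ Ioc 0 N, (if g ≤ G then ε / 4 else 9) * ((g : ℝ) ^ 2)⁻¹) * (N : ℝ) ^ 2 := by
        rw [sum_mul]
    _ ≤ (2 * (ε / 4) + 9 / G) * (N : ℝ) ^ 2 := mul_le_mul_of_nonneg_right h2 (by positivity)
    _ ≤ ε * (N : ℝ) ^ 2 := by
        apply mul_le_mul_of_nonneg_right _ (by positivity)
        linarith

end Pool.Agent.Q17.LS
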