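import Mathlib
import Pool.Agent.Q17.IG.Cdr

/-! Pairs `(A, B)` with `|A B (A - B)| ≤ y` and a large coordinate. -/

set_option autoImplicit false

namespace Pool.Agent.Q17.LS.CD

open Finset

/-- the pairs `(x, m)`, `x` large and `x² |m|` bounded -/
lemma tail1 (n y : ℕ) (hn : 0 < n) (S : Finset (ℤ × ℤ))
    (hS : ∀ p ∈ S, n < p.1.natAbs ∧ p.2 ≠ 0 ∧ p.1.natAbs ^ 2 * p.2.natAbs ≤ y) :
    (S.card : ℝ) ≤ 4 * y / n := by
  classical
  obtain ⟨G, hG⟩ : ∃ G : Finset (Σ _ : ℕ, ℕ), G = (Ioc n (max n y)).sigma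
    (fun x => Ioc 0 (y / x ^ 2)) := ⟨_, rfl⟩
  have h1 : S ⊆ ((({1, -1} : Finset ℤ) ×ˢ ({1, -1} : Finset ℤ)) ×ˢ G).image
      (fun t => (t.1.1 * (t.2.1 : ℤ), t.1.2 * (t.2.2 : ℤ))) := by
    intro p hp
    obtain ⟨h1, h2, h3⟩ := hS p hp
    have h4 : 0 < p.2.natAbs := Int.natAbs_pos.2 h2
    have h5 : p.1.natAbs ≤ y := by
      have : p.1.natAbs * 1 ≤ p.1.natAbs ^ 2 * p.2.natAbs :=
        Nat.mul_le_mul (Nat.le_self_pow (by norm_num) _) h4
      omega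
    rw [mem_image]
    refine ⟨((if 0 ≤ p.1 then 1 else -1, if 0 ≤ p.2 then 1 else -1), ⟨p.1.natAbs, p.2.natAbs⟩),
      ?_, ?_⟩
    · rw [mem_product, mem_product, hG, mem_sigma, mem_Ioc, mem_Ioc]
      refine ⟨⟨?_, ?_⟩, ⟨h1, h5.trans (le_max_right _ _)⟩, h4, ?_⟩
      · dsimp only
        split_ifs <;> simp
      · dsimp only
        split_ifs <;> simp
      · dsimp only
        rw [Nat.le_div_iff_mul_le (pow_pos (by omega) 2), mul_comm]
        exact h3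
    · apply Prod.ext
      · dsimp only
        split_ifs <;> omega
      · dsimp only
        split_ifs <;> omega
  have h2 : S.card ≤ 4 * G.card := by
    refine (card_le_card h1).trans (card_image_le.trans ?_)
    rw [card_product, card_product]
    exact Nat.mul_le_mul_right _ (Nat.mul_le_mul card_le_two card_le_two)
  have h3 : (G.card : ℝ) ≤ y / n := by
    have e1 : G.card = ∑ x ∈ Ioc n (max n y), y / x ^ 2 := by
      rw [hG, card_sigma]
      apply sum_congr rfl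
      intro x _
      rw [Nat.card_Ioc, Nat.sub_zero]
    rw [e1, Nat.cast_sum]
    calc ∑ x ∈ Ioc n (max n y), ((y / x ^ 2 : ℕ) : ℝ) ≤
          ∑ x ∈ Ioc n (max n y), (y : ℝ) * ((x : ℝ) ^ 2)⁻¹ := by
          apply sum_le_sum
          intro x _
          refine Nat.cast_div_le.trans (le_of_eq ?_)
          push_cast
          rw [div_eq_mul_inv]
      _ = y * ∑ x ∈ Ioc n (max n y), ((x : ℝ) ^ 2)⁻¹ := by rw [mul_sum]
      _ ≤ y * (n : ℝ)⁻¹ := by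
          apply mul_le_mul_of_nonneg_left _ (Nat.cast_nonneg _)
          have h4 := sum_Ioc_inv_sq_le_sub (α := ℝ) hn.ne' (le_max_left n y)
          have h5 : (0 : ℝ) ≤ ((max n y : ℕ) : ℝ)⁻¹ := by positivity
          linarith
      _ = y / n := by rw [div_eq_mul_inv]
  have h4 : (S.card : ℝ) ≤ 4 * G.card := by exact_mod_cast h2
  calc (S.card : ℝ) ≤ 4 * G.card := h4
    _ ≤ 4 * (y / n) := mul_le_mul_of_nonneg_left h3 (by norm_num)
    _ = _ := by ring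

lemma three {a b c y : ℕ} (h1 : a ≤ b + c) (h2 : b ≤ a + c) (_h3 : c ≤ a + b) (h : a * b * c ≤ y)
    {n : ℕ} (hn : 2 * n < a ∨ 2 * n < b) :
    (n < a ∧ a ^ 2 * b ≤ 2 * y) ∨ (n < b ∧ b ^ 2 * a ≤ 2 * y) ∨ (n < a ∧ a ^ 2 * c ≤ 2 * y) := by
  rcases le_total a b with hab | hab
  · rcases le_total a c with hac | hac
    · -- the least is `a`
      right; left
      refine ⟨by omega, ?_⟩
      have h4 : b ≤ 2 * c := by omega
      calc b ^ 2 * a = a * b * b := by ring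
        _ ≤ a * b * (2 * c) := Nat.mul_le_mul_left _ h4
        _ = 2 * (a * b * c) := by ring
        _ ≤ 2 * y := Nat.mul_le_mul_left _ h
    · -- the least is `c`
      right; right
      refine ⟨by omega, ?_⟩
      calc a ^ 2 * c = a * c * a := by ring
        _ ≤ a * c * (2 * b) := Nat.mul_le_mul_left _ (by omega)
        _ = 2 * (a * b * c) := by ring
        _ ≤ 2 * y := Nat.mul_le_mul_left _ h
  · rcases le_total b c with hbc | hbc
    · -- the least is `b`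
      left
      refine ⟨by omega, ?_⟩
      calc a ^ 2 * b = a * b * a := by ring
        _ ≤ a * b * (2 * c) := Nat.mul_le_mul_left _ (by omega)
        _ = 2 * (a * b * c) := by ring
        _ ≤ 2 * y := Nat.mul_le_mul_left _ h
    · right; right
      refine ⟨by omega, ?_⟩
      calc a ^ 2 * c = a * c * a := by ring
        _ ≤ a * c * (2 * b) := Nat.mul_le_mul_left _ (by omega)
        _ = 2 * (a * b * c) := by ring
        _ ≤ 2 * y := Nat.mul_le_mul_left _ h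

/-- the pairs with a large coordinate -/
theorem tail3 (n y : ℕ) (hn : 0 < n) (S : Finset (ℤ × ℤ))
    (hS : ∀ p ∈ S, (p.1 ≠ 0 ∧ p.2 ≠ 0 ∧ p.1 ≠ p.2) ∧ (p.1 * p.2 * (p.1 - p.2)).natAbs ≤ y ∧
      (2 * n < p.1.natAbs ∨ 2 * n < p.2.natAbs)) :
    (S.card : ℝ) ≤ 24 * y / n := by
  classical
  obtain ⟨S1, hS1⟩ : ∃ S1, S1 = S.filter (fun p => n < p.1.natAbs ∧
    p.1.natAbs ^ 2 * p.2.natAbs ≤ 2 * y) := ⟨_, rfl⟩
  obtain ⟨S2, hS2⟩ : ∃ S2, S2 = S.filter (fun p => n < p.2.natAbs ∧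
    p.2.natAbs ^ 2 * p.1.natAbs ≤ 2 * y) := ⟨_, rfl⟩
  obtain ⟨S3, hS3⟩ : ∃ S3, S3 = S.filter (fun p => n < p.1.natAbs ∧
    p.1.natAbs ^ 2 * (p.1 - p.2).natAbs ≤ 2 * y) := ⟨_, rfl⟩
  have hcov : S ⊆ S1 ∪ (S2 ∪ S3) := by
    intro p hp
    obtain ⟨-, h2, h3⟩ := hS p hp
    rw [Int.natAbs_mul, Int.natAbs_mul] at h2
    rw [mem_union, mem_union, hS1, hS2, hS3, mem_filter, mem_filter, mem_filter]
    rcases three (a := p.1.natAbs) (b := p.2.natAbs) (c := (p.1 - p.2).natAbs) (by omega)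
      (by omega) (by omega) h2 h3 with h4 | h4 | h4
    · exact Or.inl ⟨hp, h4⟩
    · exact Or.inr (Or.inl ⟨hp, h4⟩)
    · exact Or.inr (Or.inr ⟨hp, h4⟩)
  have c1 : (S1.card : ℝ) ≤ 4 * (2 * y : ℕ) / n := by
    apply tail1 n (2 * y) hn
    intro p hp
    rw [hS1, mem_filter] at hp
    exact ⟨hp.2.1, (hS p hp.1).1.2.1, hp.2.2⟩
  have c2 : (S2.card : ℝ) ≤ 4 * (2 * y : ℕ) / n := by
    have h1 : ((S2.image (fun p : ℤ × ℤ => (p.2, p.1))).card : ℝ) ≤ 4 * (2 * y : ℕ) / n := by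
      apply tail1 n (2 * y) hn
      intro p hp
      obtain ⟨p', hp', rfl⟩ := mem_image.1 hp
      rw [hS2, mem_filter] at hp'
      exact ⟨hp'.2.1, (hS p' hp'.1).1.1, hp'.2.2⟩
    rwa [card_image_of_injective] at h1
    intro p p' h
    rw [Prod.mk.injEq] at h
    exact Prod.ext h.2 h.1
  have c3 : (S3.card : ℝ) ≤ 4 * (2 * y : ℕ) / n := by
    have h1 : ((S3.image (fun p : ℤ × ℤ => (p.1, p.1 - p.2))).card : ℝ) ≤ 4 * (2 * y : ℕ) / n := by
      apply tail1 n (2 * y) hn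
      intro p hp
      obtain ⟨p', hp', rfl⟩ := mem_image.1 hp
      rw [hS3, mem_filter] at hp'
      exact ⟨hp'.2.1, sub_ne_zero.2 (hS p' hp'.1).1.2.2, hp'.2.2⟩
    rwa [card_image_of_injective] at h1
    intro p p' h
    rw [Prod.mk.injEq] at h
    exact Prod.ext h.1 (by linarith [h.1, h.2])
  have h1 : (S.card : ℝ) ≤ S1.card + (S2.card + S3.card) := by
    have := (card_le_card hcov).trans ((card_union_le _ _).trans
      (Nat.add_le_add_left (card_union_le _ _) _))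
    exact_mod_cast this
  push_cast at c1 c2 c3
  calc (S.card : ℝ) ≤ S1.card + (S2.card + S3.card) := h1
    _ ≤ 4 * (2 * y) / n + (4 * (2 * y) / n + 4 * (2 * y) / n) :=
        add_le_add c1 (add_le_add c2 c3)
    _ = _ := by ring

end Pool.Agent.Q17.LS.CD

namespace Pool.Agent.Q17.IG

section

variable {c c' : ℤ × ℤ} {e q : ℤ} {u : ℕ} {r : ℤ} (L : Lk c c' e q u r)

include L

/-- the scaling is at most 2 -/
lemma Lk.u_le : u ≤ 2 := by
  have h0 := L.h1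
  have h0r := L.hr
  -- the prime 3
  have h3 : ¬ 3 ∣ u := by
    rintro ⟨v, hv⟩
    rw [hv] at h0 h0r
    push_cast at h0 h0r
    have a1 : (9 : ℤ) ∣ e := by
      have : (9 : ℤ) ∣ 2 * e := ⟨-((v : ℤ) ^ 2 * r), by linarith⟩
      omega
    obtain ⟨f, hf⟩ := a1
    have a2 : (81 : ℤ) ∣ 4 * q ^ 2 := by
      rw [hf] at h0
      exact ⟨-((v : ℤ) ^ 4 * c'.1) - 3 * f ^ 2, by linarith⟩
    have a3 : (9 : ℤ) ^ 2 ∣ q ^ 2 := by
      have : (81 : ℤ) ∣ q ^ 2 := by omega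
      norm_num
      exact this
    obtain ⟨g, hg⟩ := (Int.pow_dvd_pow_iff (by norm_num)).1 a3
    apply L.hR 3 Nat.prime_three
    rw [L.hc1, L.hc2, hf, hg]
    constructor
    · exact ⟨g ^ 2 - 3 * f ^ 2, by push_cast; ring⟩
    · exact ⟨2 * f ^ 3 - g ^ 2 * f, by push_cast; ring⟩
  have h2 : ¬ 4 ∣ u := by
    rintro ⟨v, hv⟩
    rw [hv] at h0 h0r
    push_cast at h0 h0r
    have a1 : (8 : ℤ) ∣ e := by
      have : (16 : ℤ) ∣ 2 * e := ⟨-((v : ℤ) ^ 2 * r), by linarith⟩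
      omega
    obtain ⟨f, hf⟩ := a1
    have a2 : (16 : ℤ) ∣ q ^ 2 := by
      rw [hf] at h0
      have : (64 : ℤ) ∣ 4 * q ^ 2 := ⟨-(4 * ((v : ℤ) ^ 4 * c'.1)) - 3 * f ^ 2, by linarith⟩
      omega
    have a3 : (4 : ℤ) ^ 2 ∣ q ^ 2 := by
      norm_num
      exact a2
    obtain ⟨g, hg⟩ := (Int.pow_dvd_pow_iff (by norm_num)).1 a3
    apply L.hR 2 Nat.prime_two
    rw [L.hc1, L.hc2, hf, hg]
    constructor
    · exact ⟨g ^ 2 - 12 * f ^ 2, by push_cast; ring⟩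
    · exact ⟨16 * f ^ 3 - 2 * g ^ 2 * f, by push_cast; ring⟩
  by_contra hcon
  rw [not_le] at hcon
  by_cases h4 : ∃ p : ℕ, p.Prime ∧ p ∣ u ∧ p ≠ 2
  · obtain ⟨p, hp, hpu, hp2⟩ := h4
    have hp3 : p ≠ 3 := fun h => h3 (h ▸ hpu)
    have hp4 : p ≠ 4 := fun h => by
      rw [h] at hp
      exact absurd hp (by norm_num)
    have := hp.two_le
    exact L.not_dvd_u hp (by omega) hpu
  · push Not at h4
    obtain ⟨k, hk⟩ : ∃ k, u = 2 ^ k :=
      ⟨_, Nat.eq_prime_pow_of_unique_prime_dvd (p := 2) L.hu.ne' (fun {d} hd hdu => h4 d hd hdu)⟩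
    have hk2 : k < 2 := by
      by_contra hk2
      rw [not_lt] at hk2
      exact h2 (by
        rw [hk]
        exact pow_dvd_pow 2 hk2)
    interval_cases k
    · norm_num at hk
      omega
    · norm_num at hk
      omega

/-- the discriminant in terms of the conductor -/
lemma Lk.prod : ∃ w : ℕ, 0 < w ∧
    Pool.Agent.H925R.Szpiro.D (-c'.1) (-c'.2) = ((w * Pool.Agent.Y679.Cr.cs c' : ℕ) : ℤ) ^ 2 ∧
    ((3 * e + 2 * q) * (3 * e - 2 * q) * ((3 * e + 2 * q) - (3 * e - 2 * q))).natAbs =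
      u ^ 6 * (w * Pool.Agent.Y679.Cr.cs c') := by
  obtain ⟨w, hw, h1⟩ := Pool.Agent.Y679.Par.quot L.ok.1 L.ok.2
  refine ⟨w, hw, h1, ?_⟩
  have h2 := L.disc
  rw [Pool.Agent.Y679.Cr.D_neg] at h1
  have h3 : ((3 * e + 2 * q) * (3 * e - 2 * q) * ((3 * e + 2 * q) - (3 * e - 2 * q))) ^ 2 =
      (((u ^ 6 * (w * Pool.Agent.Y679.Cr.cs c') : ℕ) : ℤ)) ^ 2 := by
    have e1 : (((u ^ 6 * (w * Pool.Agent.Y679.Cr.cs c') : ℕ) : ℤ)) ^ 2 =
        (u : ℤ) ^ 12 * ((w * Pool.Agent.Y679.Cr.cs c' : ℕ) : ℤ) ^ 2 := by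
      push_cast
      ring
    have e2 : ((w * Pool.Agent.Y679.Cr.cs c' : ℕ) : ℤ) ^ 2 =
        -(4 * c'.1 ^ 3 + 27 * c'.2 ^ 2) := h1.symm
    rw [e1, e2]
    linear_combination h2
  have h4 := Int.natAbs_eq_natAbs_iff.2 (sq_eq_sq_iff_eq_or_eq_neg.1 h3)
  rwa [Int.natAbs_natCast] at h4

end

end Pool.Agent.Q17.IG
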