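import Pool.Agent.Q17.LS.Tw
import Pool.Agent.Q17.LS.Cst

/-! The elements of order two of the Tate-Shafarevich groups of the quadratic twists by a fixed
integer, for almost all curves with a rational cyclic subgroup of order 4, by the conductor. -/

set_option autoImplicit false

namespace Pool.Agent.Q17.LS.CD

open Finset Filter Topology
open Pool.Agent.TH841.SH.D
open Pool.Agent.TH841.LS (WI big_loglog)
open Pool.Agent.W307.RT (Sh)
open Pool.Agent.Q17.IG (Lk P4 ph ph_spec ph_ok ph_cs G4_ge G4_fin ncard_le3 bdd1)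
open Pool.Agent.Y679.Cr (cs cs_pos Gm Bdd D_neg)
open Pool.Agent.H925R.Szpiro (condS)

/-- the curves of large discriminant -/
def Yb (W : ℕ) : Set (ℤ × ℤ) := {c | ((W : ℝ) * (cs c : ℝ)) ^ 2 <
  |((Pool.Agent.H925R.Szpiro.D (-c.1) (-c.2) : ℤ) : ℝ)|}

/-- the number of the curves of large discriminant -/
lemma large : ∃ η C : ℝ, 0 < η ∧ 0 < C ∧ ∀ f : ℤ × ℤ → ℕ, Bdd f → ∀ Z W : ℕ, 1 ≤ Z → 1 ≤ W →
    ((Gm P4 f Z ∩ {c | ph c ∈ Yb W}).ncard : ℝ) ≤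
      C * ((W : ℝ) ^ (-(1 / 6) : ℝ) * (Z : ℝ) ^ ((2 : ℝ) / 3) + (Z : ℝ) ^ (2 / 3 - η)) := by
  obtain ⟨η, C, hη, hC, h⟩ := Pool.Agent.Y679.Par.Ml_le (σ := 1 / 6) (by norm_num) (by norm_num)
  refine ⟨η, 3 * C, hη, by positivity, fun f hf Z W hZ hW => ?_⟩
  have h1 := ncard_le3 hf Z (Yb W)
  have h2 := h (fun _ => 1) (fun _ _ _ => le_rfl) Z W (by exact_mod_cast hZ) (by exact_mod_cast hW)
  have h3 : (Gm Pool.Agent.Y679.Cr.Ok (fun _ => 1) Z ∩ Yb W).ncard ≤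
      (Pool.Agent.Y679.Par.Ml (fun _ => 1) W Z).ncard := by
    have hf2 : (Pool.Agent.Y679.Par.Ml (fun _ => 1) (W : ℝ) (Z : ℝ)).Finite :=
      (Pool.Agent.Y679.Cr.fin1 Z).subset fun _ hx => hx.1
    refine Set.ncard_le_ncard_of_injOn Pool.Agent.Y679.Cr.nu ?_
      Pool.Agent.Y679.Cr.nu_inj.injOn hf2
    rintro c ⟨hc1, hc2⟩
    exact ⟨Pool.Agent.Y679.Cr.maps (fun _ h => h) (fun _ _ => le_rfl) hc1, hc2⟩
  have h4 : ((Gm Pool.Agent.Y679.Cr.Ok (fun _ => 1) Z ∩ Yb W).ncard : ℝ) ≤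
      ((Pool.Agent.Y679.Par.Ml (fun _ => 1) (W : ℝ) (Z : ℝ)).ncard : ℝ) := by exact_mod_cast h3
  linarith

/-- the parameters -/
lemma par_ex : ∃ t : ℤ × ℤ → ℤ × ℤ, ∀ c, P4 c → ∃ (e q : ℤ) (u : ℕ) (r : ℤ),
    t c = (3 * e + 2 * q, 3 * e - 2 * q) ∧ Lk c (ph c) e q u r := by
  classical
  have key : ∀ c : ℤ × ℤ, ∃ t : ℤ × ℤ, P4 c → ∃ (e q : ℤ) (u : ℕ) (r : ℤ),
      t = (3 * e + 2 * q, 3 * e - 2 * q) ∧ Lk c (ph c) e q u r := by
    intro c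
    by_cases hc : P4 c
    · obtain ⟨e, q, u, r, L⟩ := ph_spec hc
      exact ⟨_, fun _ => ⟨e, q, u, r, rfl, L⟩⟩
    · exact ⟨0, fun h => absurd h hc⟩
  choose t ht using key
  exact ⟨t, ht⟩

lemma rpow_cube {Z : ℕ} : ∃ t : ℝ, 0 ≤ t ∧ t ^ 3 = Z ∧ (Z : ℝ) ^ ((2 : ℝ) / 3) = t ^ 2 := by
  obtain ⟨t, ht0, ht⟩ : ∃ t : ℝ, 0 ≤ t ∧ t ^ 3 = Z := by
    refine ⟨(Z : ℝ) ^ ((1 : ℝ) / 3), by positivity, ?_⟩
    rw [← Real.rpow_natCast, ← Real.rpow_mul (Nat.cast_nonneg Z)]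
    norm_num
  refine ⟨t, ht0, ht, ?_⟩
  rw [← ht, ← Real.rpow_natCast, ← Real.rpow_mul ht0, ← Real.rpow_natCast]
  norm_num

/-- **almost all curves of the family, by the conductor** -/
theorem cdr (D : ℤ) (hD : D ≠ 0) (δ ε : ℝ) (hδ : 0 < δ) (hε : 0 < ε) : ∃ Z0 : ℕ,
    ∀ f : ℤ × ℤ → ℕ, Bdd f → ∀ Z : ℕ, Z0 ≤ Z →
    ((Gm P4 f Z ∩ {c | ¬ Pool.Agent.Q17.LS.Ok δ (Z : ℝ) (Sh (D ^ 2 * c.1) (D ^ 3 * c.2))}).ncard : ℝ) ≤
      ε * ((Gm P4 f Z).ncard : ℝ) := by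
  classical
  obtain ⟨c0, Z1, hc0, hlow⟩ := G4_ge
  obtain ⟨η, C, hη, hC, hlarge⟩ := large
  obtain ⟨t, ht⟩ := par_ex
  -- the bound `W` for the quotient
  obtain ⟨W, hW1, hW⟩ : ∃ W : ℕ, 1 ≤ W ∧ C * (W : ℝ) ^ (-(1 / 6) : ℝ) ≤ ε * c0 / 6 := by
    have h1 : Tendsto (fun W : ℕ => C * (W : ℝ) ^ (-(1 / 6) : ℝ)) atTop (𝓝 (C * 0)) :=
      ((tendsto_rpow_neg_atTop (by norm_num)).comp tendsto_natCast_atTop_atTop).const_mul C
    rw [mul_zero] at h1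
    obtain ⟨W, h2, h3⟩ := ((h1.eventually_le_const (show 0 < ε * c0 / 6 by positivity)).and
      (eventually_ge_atTop 1)).exists
    exact ⟨W, h3, h2⟩
  have hη2 : ∀ᶠ Z : ℕ in atTop, C * (Z : ℝ) ^ (-η) ≤ ε * c0 / 6 := by
    have h1 : Tendsto (fun Z : ℕ => C * (Z : ℝ) ^ (-η)) atTop (𝓝 (C * 0)) :=
      ((tendsto_rpow_neg_atTop hη).comp tendsto_natCast_atTop_atTop).const_mul C
    rw [mul_zero] at h1
    exact h1.eventually_le_const (by positivity)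
  obtain ⟨Z2, hZ2⟩ := eventually_atTop.1 hη2
  -- the bound `K` for the box
  obtain ⟨K, hK1, hK⟩ : ∃ K : ℕ, 1 ≤ K ∧ 1536 * (W : ℝ) ≤ ε * c0 / 3 * K := by
    obtain ⟨K, hK⟩ := exists_nat_gt (1536 * (W : ℝ) / (ε * c0 / 3))
    refine ⟨K + 1, by omega, ?_⟩
    rw [div_lt_iff₀ (by positivity)] at hK
    push_cast
    nlinarith [show 0 < ε * c0 / 3 by positivity]
  obtain ⟨N0, hN0⟩ := Pool.Agent.Q17.LS.TW.box D hD (δ / 2) (ε * c0 / (48 * (K : ℝ) ^ 2))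
    (by positivity) (by positivity)
  obtain ⟨M3, hM3⟩ := big_loglog (δ / 2) (3 + δ) (by positivity)
  refine ⟨max (max Z1 Z2) (max (N0 ^ 3 + M3 + 3) ((4 * K) ^ 6)), fun f hf Z hZ => ?_⟩
  have g1 : Z1 ≤ Z := (le_max_left _ _).trans ((le_max_left _ _).trans hZ)
  have g2 : Z2 ≤ Z := (le_max_right _ _).trans ((le_max_left _ _).trans hZ)
  have g3 : N0 ^ 3 + M3 + 3 ≤ Z := (le_max_left _ _).trans ((le_max_right _ _).trans hZ)
  have g4 : (4 * K) ^ 6 ≤ Z := (le_max_right _ _).trans ((le_max_right _ _).trans hZ)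
  have hZ1 : 1 ≤ Z := by omega
  obtain ⟨s, hs0, hs, hs2⟩ := rpow_cube (Z := Z)
  have hl := hlow f hf Z g1
  rw [hs2] at hl
  have hZr : (1 : ℝ) ≤ Z := by exact_mod_cast hZ1
  have hs1 : 1 ≤ s := by
    by_contra hcon
    rw [not_le] at hcon
    have : s ^ 3 < 1 := pow_lt_one₀ hs0 hcon (by norm_num)
    linarith
  have hKr : (1 : ℝ) ≤ K := by exact_mod_cast hK1
  obtain ⟨n, hn⟩ : ∃ n : ℕ, n = ⌈(K : ℝ) * s⌉₊ := ⟨_, rfl⟩
  have n1 : (K : ℝ) * s ≤ n := by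
    rw [hn]
    exact Nat.le_ceil _
  have n2 : (n : ℝ) ≤ 2 * (K * s) := by
    have h1 : (n : ℝ) < K * s + 1 := by
      rw [hn]
      exact Nat.ceil_lt_add_one (by positivity)
    have h2 : 1 ≤ (K : ℝ) * s := by nlinarith
    linarith
  have n0 : 0 < n := by
    have : (0 : ℝ) < n := by
      have : 0 < (K : ℝ) * s := by positivity
      linarith
    exact_mod_cast this
  obtain ⟨N, hN⟩ : ∃ N : ℕ, N = 2 * n := ⟨_, rfl⟩
  have hNr : (N : ℝ) = 2 * n := by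
    rw [hN]
    push_cast
    ring
  -- the size of `N`
  have b1 : N0 ≤ N := by
    have h1 : (N0 : ℝ) ^ 3 ≤ s ^ 3 := by
      rw [hs]
      have : N0 ^ 3 ≤ Z := by omega
      exact_mod_cast this
    have h2 : (N0 : ℝ) ≤ s := (pow_le_pow_iff_left₀ (by positivity) hs0 (by norm_num)).1 h1
    have h3 : (N0 : ℝ) ≤ N := by
      rw [hNr]
      nlinarith
    exact_mod_cast h3
  have b2 : N ^ 6 ≤ Z ^ 7 := by
    have h1 : (N : ℝ) ≤ (4 * K) * s := by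
      rw [hNr]
      linarith
    have h2 : (N : ℝ) ^ 6 ≤ Z ^ 7 := by
      calc (N : ℝ) ^ 6 ≤ ((4 * K) * s) ^ 6 := pow_le_pow_left₀ (by positivity) h1 6
        _ = (4 * (K : ℝ)) ^ 6 * (s ^ 3) ^ 2 := by ring
        _ ≤ Z * (Z : ℝ) ^ 2 := by
            rw [hs]
            apply mul_le_mul_of_nonneg_right _ (by positivity)
            exact_mod_cast g4
        _ = (Z : ℝ) ^ 3 := by ring
        _ ≤ (Z : ℝ) ^ 7 := pow_le_pow_right₀ hZr (by norm_num)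
    exact_mod_cast h2
  have b3 : Z ≤ (N ^ 6) ^ 7 := by
    have h1 : s ≤ N := by
      rw [hNr]
      nlinarith
    have h2 : (Z : ℝ) ≤ (N ^ 6) ^ 7 := by
      have h3 : (1 : ℝ) ≤ N := hs1.trans h1
      calc (Z : ℝ) = s ^ 3 := hs.symm
        _ ≤ (N : ℝ) ^ 3 := pow_le_pow_left₀ hs0 h1 3
        _ ≤ (N : ℝ) ^ 42 := pow_le_pow_right₀ h3 (by norm_num)
        _ = (N ^ 6) ^ 7 := by ring
    exact_mod_cast h2
  have b4 : 3 ≤ N ^ 6 := by
    have h1 : 2 ≤ N := by omega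
    calc 3 ≤ 2 ^ 6 := by norm_num
      _ ≤ N ^ 6 := Nat.pow_le_pow_left h1 6
  have hb := hM3 Z (by omega)
  have hbox := hN0 N (N ^ 6) b1 (Nat.le_mul_of_pos_left _ (by norm_num)) le_rfl
  -- the exceptions
  obtain ⟨E, hE⟩ : ∃ E : Set (ℤ × ℤ), E = Gm P4 f Z ∩
    {c | ¬ Pool.Agent.Q17.LS.Ok δ (Z : ℝ) (Sh (D ^ 2 * c.1) (D ^ 3 * c.2))} := ⟨_, rfl⟩
  have hEf : E.Finite := by
    rw [hE]
    exact (G4_fin hf Z).subset Set.inter_subset_left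
  obtain ⟨E1, hE1⟩ : ∃ E1 : Set (ℤ × ℤ), E1 = Gm P4 f Z ∩ {c | ph c ∈ Yb W} := ⟨_, rfl⟩
  have hE1f : E1.Finite := by
    rw [hE1]
    exact (G4_fin hf Z).subset Set.inter_subset_left
  obtain ⟨y, hy⟩ : ∃ y : ℕ, y = 64 * (W * Z) := ⟨_, rfl⟩
  -- the curves outside of `E1`
  have hout : ∀ c ∈ E \ E1, ((t c).1 ≠ 0 ∧ (t c).2 ≠ 0 ∧ (t c).1 ≠ (t c).2) ∧
      ((t c).1 * (t c).2 * ((t c).1 - (t c).2)).natAbs ≤ y := by
    rintro c ⟨hc, hc1⟩
    rw [hE] at hc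
    obtain ⟨e, q, u, r, h1, L⟩ := ht c hc.1.1
    rw [h1]
    obtain ⟨w, hw, h2, h3⟩ := L.prod
    obtain ⟨hq, h9⟩ := L.ne
    have h5 : (3 * e + 2 * q) * (3 * e - 2 * q) ≠ 0 := by
      intro h
      apply h9
      linear_combination -h
    refine ⟨⟨left_ne_zero_of_mul h5, right_ne_zero_of_mul h5, fun h => hq ?_⟩, ?_⟩
    · have h6 : 3 * e + 2 * q = 3 * e - 2 * q := h
      omega
    · change ((3 * e + 2 * q) * (3 * e - 2 * q) * ((3 * e + 2 * q) - (3 * e - 2 * q))).natAbs ≤ y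
      rw [h3, hy]
      have h6 : w ≤ W := by
        by_contra hcon
        rw [not_le] at hcon
        apply hc1
        rw [hE1]
        refine ⟨hc.1, ?_⟩
        change ((W : ℝ) * (cs (ph c) : ℝ)) ^ 2 <
          |((Pool.Agent.H925R.Szpiro.D (-(ph c).1) (-(ph c).2) : ℤ) : ℝ)|
        rw [h2]
        push_cast
        rw [abs_of_nonneg (by positivity)]
        have h7 : (0 : ℝ) < cs (ph c) := by exact_mod_cast cs_pos _
        have h8 : (W : ℝ) < w := by exact_mod_cast hcon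
        apply pow_lt_pow_left₀ _ (by positivity) (by norm_num)
        exact mul_lt_mul_of_pos_right h8 h7
      have h7 : cs (ph c) ≤ Z := by
        rw [ph_cs hc.1.1]
        exact Pool.Agent.Y679.Cr.cs_le (hf c).1 hc.1.2
      have h8 : u ^ 6 ≤ 64 := by
        calc u ^ 6 ≤ 2 ^ 6 := Nat.pow_le_pow_left L.u_le 6
          _ = 64 := by norm_num
      exact Nat.mul_le_mul h8 (Nat.mul_le_mul h6 h7)
  have htinj : Set.InjOn t E := by
    intro c hc b hb' h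
    rw [hE] at hc hb'
    obtain ⟨e, q, u, r, h1, L⟩ := ht c hc.1.1
    obtain ⟨e', q', u', r', h1', L'⟩ := ht b hb'.1.1
    rw [h1, h1', Prod.mk.injEq] at h
    have e1 : e = e' := by omega
    have e2 : q = q' := by omega
    subst e1 e2
    exact Prod.ext (L.hc1.trans L'.hc1.symm) (L.hc2.trans L'.hc2.symm)
  obtain ⟨F, hF⟩ : ∃ F : Finset (ℤ × ℤ), F = (hEf.subset (Set.sdiff_subset (t := E1))).toFinset :=
    ⟨_, rfl⟩
  have hFm : ∀ c, c ∈ F ↔ c ∈ E \ E1 := fun c => by rw [hF, Set.Finite.mem_toFinset]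
  obtain ⟨F2, hF2⟩ : ∃ F2 : Finset (ℤ × ℤ), F2 = F.filter (fun c =>
    2 * n < (t c).1.natAbs ∨ 2 * n < (t c).2.natAbs) := ⟨_, rfl⟩
  obtain ⟨F3, hF3⟩ : ∃ F3 : Finset (ℤ × ℤ), F3 = F.filter (fun c =>
    ¬ (2 * n < (t c).1.natAbs ∨ 2 * n < (t c).2.natAbs)) := ⟨_, rfl⟩
  have k1 : (E1.ncard : ℝ) ≤ ε * c0 / 3 * s ^ 2 := by
    have h1 := hlarge f hf Z W hZ1 hW1
    rw [← hE1] at h1
    have h2 : (Z : ℝ) ^ (2 / 3 - η) = (Z : ℝ) ^ ((2 : ℝ) / 3) * (Z : ℝ) ^ (-η) := by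
      rw [← Real.rpow_add (by linarith)]
      congr 1
    rw [h2, hs2] at h1
    have h3 := hZ2 Z g2
    have h4 : 0 ≤ s ^ 2 := by positivity
    nlinarith
  have k2 : (F2.card : ℝ) ≤ ε * c0 / 3 * s ^ 2 := by
    have h1 : ((F2.image t).card : ℝ) ≤ 24 * y / n := by
      apply tail3 n y n0
      intro p hp
      obtain ⟨c, hc, rfl⟩ := mem_image.1 hp
      rw [hF2, mem_filter, hFm] at hc
      exact ⟨(hout c hc.1).1, (hout c hc.1).2, hc.2⟩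
    rw [card_image_of_injOn] at h1
    · refine h1.trans ?_
      have h2 : (0 : ℝ) < n := by exact_mod_cast n0
      rw [div_le_iff₀ h2, hy]
      push_cast
      calc 24 * (64 * ((W : ℝ) * Z)) = 1536 * (W : ℝ) * s ^ 3 := by
            rw [hs]
            ring
        _ ≤ ε * c0 / 3 * K * s ^ 3 := mul_le_mul_of_nonneg_right hK (by positivity)
        _ = ε * c0 / 3 * s ^ 2 * (K * s) := by ring
        _ ≤ _ := mul_le_mul_of_nonneg_left n1 (by positivity)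
    · intro c hc b hb' h
      rw [mem_coe, hF2, mem_filter, hFm] at hc hb'
      exact htinj hc.1.1 hb'.1.1 h
  have k3 : (F3.card : ℝ) ≤ ε * c0 / 3 * s ^ 2 := by
    have h1 : F3.card ≤ ((Icc (-(N : ℤ)) N ×ˢ Icc (-(N : ℤ)) N).filter (fun p : ℤ × ℤ => p ≠ 0 ∧
      ¬ Pool.Agent.Q17.LS.Ok (δ / 2) ((N ^ 6 : ℕ) : ℝ) (WI (D * p.1) (D * p.2)))).card := by
      refine card_le_card_of_injOn t (fun c hc => ?_) (fun c hc b hb' h => ?_)
      · rw [mem_coe, hF3, mem_filter, hFm, not_or, not_lt, not_lt, ← hN] at hc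
        obtain ⟨hc1, hc2, hc3⟩ := hc
        obtain ⟨⟨m1, m2, m3⟩, -⟩ := hout c hc1
        rw [mem_coe, mem_filter, mem_product, mem_Icc, mem_Icc]
        refine ⟨⟨by omega, by omega⟩, fun h0 => m1 (by rw [h0]; rfl), fun hok => ?_⟩
        have hcE := hc1.1
        rw [hE] at hcE
        obtain ⟨e, q, u, r, h1, L⟩ := ht c hcE.1.1
        rw [h1] at hok
        apply hcE.2
        obtain ⟨k, hk1, hk2⟩ := hok
        have S := Pool.Agent.Q17.LS.TW.sbWD D L.hc1 L.hc2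
        have hfin : Finite {x : Sha (WI (D * (3 * e + 2 * q)) (D * (3 * e - 2 * q))) // x + x = 0} := by
          apply Nat.finite_of_card_ne_zero
          rw [hk2]
          positivity
        refine ok_of (X := ((N ^ 6 : ℕ) : ℝ)) (by exact_mod_cast b4) ?_ (by exact_mod_cast b2)
          (by exact_mod_cast b3) hδ hb ⟨k, hk1, ?_⟩
        · have : 3 ≤ Z := by omega
          exact_mod_cast this
        · rw [← hk2]
          exact card_iso S hfin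
      · rw [mem_coe, hF3, mem_filter, hFm] at hc hb'
        exact htinj hc.1.1 hb'.1.1 h
    have h2 : (F3.card : ℝ) ≤ ε * c0 / (48 * (K : ℝ) ^ 2) * (N : ℝ) ^ 2 :=
      (Nat.cast_le.2 h1).trans hbox
    have h3 : (N : ℝ) ≤ 4 * (K * s) := by
      rw [hNr]
      linarith
    have h4 : (N : ℝ) ^ 2 ≤ (4 * (K * s)) ^ 2 := pow_le_pow_left₀ (Nat.cast_nonneg _) h3 2
    calc (F3.card : ℝ) ≤ ε * c0 / (48 * (K : ℝ) ^ 2) * (N : ℝ) ^ 2 := h2
      _ ≤ ε * c0 / (48 * (K : ℝ) ^ 2) * (4 * (K * s)) ^ 2 :=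
          mul_le_mul_of_nonneg_left h4 (by positivity)
      _ = ε * c0 / 3 * s ^ 2 := by
          field_simp
          ring
  have k4 : (E.ncard : ℝ) ≤ E1.ncard + (F2.card + F3.card) := by
    have h1 : E ⊆ E1 ∪ (F : Set (ℤ × ℤ)) := by
      intro c hc
      by_cases h : c ∈ E1
      · exact Or.inl h
      · exact Or.inr (mem_coe.2 ((hFm c).2 ⟨hc, h⟩))
    have h2 : E.ncard ≤ E1.ncard + F.card := by
      refine (Set.ncard_le_ncard h1 (hE1f.union F.finite_toSet)).trans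
        ((Set.ncard_union_le _ _).trans ?_)
      rw [Set.ncard_coe_finset]
    have h3 : F.card = F2.card + F3.card := by
      rw [hF2, hF3, card_filter_add_card_filter_not]
    rw [h3] at h2
    exact_mod_cast h2
  rw [← hE]
  calc (E.ncard : ℝ) ≤ E1.ncard + (F2.card + F3.card) := k4
    _ ≤ ε * c0 / 3 * s ^ 2 + (ε * c0 / 3 * s ^ 2 + ε * c0 / 3 * s ^ 2) :=
        add_le_add k1 (add_le_add k2 k3)
    _ = ε * (c0 * s ^ 2) := by ring
    _ ≤ _ := mul_le_mul_of_nonneg_left hl hε.le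

end Pool.Agent.Q17.LS.CD
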