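import Pool.Agent.Q17.LS.Ker

/-! The elements of order two of the Tate-Shafarevich group, for almost all coprime pairs. -/

set_option autoImplicit false

namespace Pool.Agent.Q17.LS

open Finset WeierstrassCurve
open Pool.Agent.TH841.SH.D
open Pool.Agent.TH841.LS (WI big_loglog)
open Pool.Agent.TH841.PT (EQ)
open Pool.Agent.TH841.NO (SQ fo)

/-- the order of the group of the elements killed by 2 is `2 ^ k`, `k` near `(3 / 2) log log X` -/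
def Ok (δ X : ℝ) (W : WeierstrassCurve ℚ) : Prop :=
  ∃ k : ℕ, |(k : ℝ) - 3 / 2 * Real.log (Real.log X)| ≤ δ * Real.log (Real.log X) ∧
    Nat.card {x : Sha W // x + x = 0} = 2 ^ k

/-- one curve -/
lemma one_ok {δ X : ℝ} {A B : ℤ} {R : ℕ} (hA : A ≠ 0) (hB : B ≠ 0) (hAB : A ≠ B)
    (hR : (R : ℝ) + 1 ≤ δ / 2 * Real.log (Real.log X)) (hδ : 0 < δ)
    (hf : ∀ j : ℕ, Finite (ShaTor (EQ A B) (2 ^ j)))
    (hc : ∀ j : ℕ, 1 ≤ j → (2 : ℝ) ^ rk (EQ A B) *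
          (Nat.card (ShaTor (EQ A B) (2 ^ j)) : ℝ) ^ ((1 : ℝ) / j) ≤ 2 ^ (R + 1))
    (hφ : ∃ k : ℕ, (3 / 2 - δ / 2) * Real.log (Real.log X) ≤ k ∧
        ∃ φ : (Fin k → ZMod 2) →+ Sha (WI A B), Function.Injective φ)
    (hfo : (fo (-(A + B)) (A * B) : ℝ) ≤ (3 / 2 + δ / 2) * Real.log (Real.log X)) :
    Ok δ X (WI A B) := by
  obtain ⟨h1, h2⟩ := card_le hAB hA hB (hf 1)
  obtain ⟨k, hk⟩ := two_card h1
  obtain ⟨k0, hk0, φ, hinj⟩ := hφ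
  have h3 := le_card h1 φ hinj
  rw [hk] at h2 h3
  have h4 : k0 ≤ k := (Nat.pow_le_pow_iff_right (by norm_num)).1 h3
  have h5 : (Nat.card (ShaTor (EQ A B) (2 ^ 1)) : ℝ) ≤ 2 ^ (R + 1) := by
    have h6 := hc 1 le_rfl
    rw [Nat.cast_one, div_one, Real.rpow_one] at h6
    have h7 : (1 : ℝ) ≤ 2 ^ rk (EQ A B) := one_le_pow₀ (by norm_num)
    have h8 : (0 : ℝ) ≤ Nat.card (ShaTor (EQ A B) (2 ^ 1)) := Nat.cast_nonneg _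
    calc (Nat.card (ShaTor (EQ A B) (2 ^ 1)) : ℝ) = 1 * Nat.card (ShaTor (EQ A B) (2 ^ 1)) :=
          (one_mul _).symm
      _ ≤ 2 ^ rk (EQ A B) * Nat.card (ShaTor (EQ A B) (2 ^ 1)) :=
          mul_le_mul_of_nonneg_right h7 h8
      _ ≤ _ := h6
  have h6 : Nat.card (ShaTor (EQ A B) (2 ^ 1)) ≤ 2 ^ (R + 1) := by exact_mod_cast h5
  have h7 : (SQ (-(A + B)) (A * B)).ncard < 2 ^ (fo (-(A + B)) (A * B) + 1) := by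
    unfold fo
    exact Nat.lt_pow_succ_log_self (by norm_num) _
  have h8 : 2 ^ k < 2 ^ (fo (-(A + B)) (A * B) + 1 + (R + 1)) := by
    rw [pow_add _ (fo (-(A + B)) (A * B) + 1)]
    calc 2 ^ k ≤ _ := h2
      _ ≤ (SQ (-(A + B)) (A * B)).ncard * 2 ^ (R + 1) := Nat.mul_le_mul_left _ h6
      _ < _ := Nat.mul_lt_mul_of_pos_right h7 (by positivity)
  have h9 : k < fo (-(A + B)) (A * B) + 1 + (R + 1) := (Nat.pow_lt_pow_iff_right (by norm_num)).1 h8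
  have h10 : (k : ℝ) ≤ fo (-(A + B)) (A * B) + R + 1 := by
    have : k ≤ fo (-(A + B)) (A * B) + R + 1 := by omega
    exact_mod_cast this
  have h11 : (k0 : ℝ) ≤ k := by exact_mod_cast h4
  obtain ⟨l, hl⟩ : ∃ l, l = Real.log (Real.log X) := ⟨_, rfl⟩
  rw [← hl] at hR hk0 hfo
  refine ⟨k, ?_, hk⟩
  rw [← hl, abs_le]
  have hR0 : (0 : ℝ) ≤ R := Nat.cast_nonneg _
  constructor <;> linarith

open Classical in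
/-- **almost all coprime pairs** -/
theorem almost (D : ℤ) (hD : D ≠ 0) (δ ε : ℝ) (hδ : 0 < δ) (hε : 0 < ε) :
    ∃ Y0 : ℕ, ∀ Y : ℕ, Y0 ≤ Y →
      (((Icc (-(Y : ℤ)) Y ×ˢ Icc (-(Y : ℤ)) Y).filter (fun t : ℤ × ℤ => IsCoprime t.1 t.2 ∧
        ¬ Ok δ ((2 * Y + 1 : ℕ) : ℝ) (WI (D * t.1) (D * t.2)))).card : ℝ) ≤
        ε * ((2 * Y + 1 : ℕ) : ℝ) ^ 2 := by
  have havg := Pool.Agent.W307.FK.avgn_of Pool.Agent.W307.FK.expf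
  obtain ⟨R1, X1, g1⟩ := Pool.Agent.TH841.LS.large6 Pool.Agent.TH841.LS.CNT2Xf.cnt2x havg D hD
    (δ / 2) (ε / 2) 1 (by positivity) (by positivity)
  obtain ⟨R2, X2, g2⟩ := Pool.Agent.TH841.NO.norder2 Pool.Agent.TH841.NO.QULf.qul
    Pool.Agent.TH841.NO.QUMf.qum Pool.Agent.TH841.NO.LWAf.lwa Pool.Agent.TH841.NO.LWBf.lwb
    Pool.Agent.TH841.NO.LWBf.lwc Pool.Agent.TH841.NO.PRf.pra Pool.Agent.TH841.NO.PRf.prb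
    Pool.Agent.TH841.NO.LIN2f.lin2 Pool.Agent.TH841.LS.CNT2Xf.cnt2x
    Pool.Agent.TH841.NO.CNTU2f.cntu2 havg D hD (δ / 2) (ε / 2) 1 (by positivity) (by positivity)
  obtain ⟨M3, hM3⟩ := big_loglog (δ / 2) ((R1 : ℝ) + 1) (by positivity)
  refine ⟨X1 + X2 + M3 + 1, fun Y hY => ?_⟩
  obtain ⟨X, hX⟩ : ∃ X, X = 2 * Y + 1 := ⟨_, rfl⟩
  rw [← hX]
  have hN : (-((Y : ℤ) + 1)).natAbs ≤ X ^ 1 := by
    rw [pow_one]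
    omega
  have b1 := g1 (-((Y : ℤ) + 1)) (-((Y : ℤ) + 1)) X (by omega) hN hN
  have b2 := g2 (-((Y : ℤ) + 1)) (-((Y : ℤ) + 1)) X (by omega) hN hN
  have b3 := hM3 X (by omega)
  obtain ⟨S1, hS1⟩ : ∃ S1, S1 = (Icc 1 X ×ˢ Icc 1 X).filter (fun t : ℕ × ℕ =>
        IsCoprime (-((Y : ℤ) + 1) + (t.1 : ℤ)) (-((Y : ℤ) + 1) + (t.2 : ℤ)) ∧
        ¬ ∀ A B : ℤ, A = D * (-((Y : ℤ) + 1) + (t.1 : ℤ)) →
          B = D * (-((Y : ℤ) + 1) + (t.2 : ℤ)) →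
        A ≠ 0 ∧ B ≠ 0 ∧ A ≠ B ∧
        (∀ j : ℕ, Finite (ShaTor (EQ A B) (2 ^ j))) ∧
        (∀ j : ℕ, 1 ≤ j → (2 : ℝ) ^ rk (EQ A B) *
          (Nat.card (ShaTor (EQ A B) (2 ^ j)) : ℝ) ^ ((1 : ℝ) / j) ≤ 2 ^ (R1 + 1)) ∧
        ∃ k : ℕ, (3 / 2 - δ / 2) * Real.log (Real.log X) ≤ k ∧
        ∃ φ : (Fin k → ZMod 2) →+ Sha (WI A B), Function.Injective φ) := ⟨_, rfl⟩
  obtain ⟨S2, hS2⟩ : ∃ S2, S2 = (Icc 1 X ×ˢ Icc 1 X).filter (fun t : ℕ × ℕ =>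
        IsCoprime (-((Y : ℤ) + 1) + (t.1 : ℤ)) (-((Y : ℤ) + 1) + (t.2 : ℤ)) ∧
        ¬ ∀ A B : ℤ, A = D * (-((Y : ℤ) + 1) + (t.1 : ℤ)) →
          B = D * (-((Y : ℤ) + 1) + (t.2 : ℤ)) →
        A ≠ 0 ∧ B ≠ 0 ∧ A ≠ B ∧
        (3 / 2 - δ / 2) * Real.log (Real.log X) ≤ fo (-(A + B)) (A * B) ∧
        (fo (-(A + B)) (A * B) : ℝ) ≤ (3 / 2 + δ / 2) * Real.log (Real.log X) ∧
        fo (2 * (A + B)) ((A - B) ^ 2) ≤ R2 ∧ rk (EQ A B) ≤ R2) := ⟨_, rfl⟩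
  obtain ⟨S, hS⟩ : ∃ S, S = (Icc (-(Y : ℤ)) Y ×ˢ Icc (-(Y : ℤ)) Y).filter
      (fun t : ℤ × ℤ => IsCoprime t.1 t.2 ∧
        ¬ Ok δ (X : ℝ) (WI (D * t.1) (D * t.2))) := ⟨_, rfl⟩
  have c1 : (S1.card : ℝ) ≤ ε / 2 * (X : ℝ) ^ 2 := by
    rw [hS1]
    convert b1
  have c2 : (S2.card : ℝ) ≤ ε / 2 * (X : ℝ) ^ 2 := by
    rw [hS2]
    convert b2
  have hsh : ∀ t ∈ S, (Icc (-(Y : ℤ)) Y ×ˢ Icc (-(Y : ℤ)) Y).card = 0 ∨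
      (-(Y : ℤ) ≤ t.1 ∧ t.1 ≤ Y) ∧ (-(Y : ℤ) ≤ t.2 ∧ t.2 ≤ Y) := by
    intro t ht
    rw [hS, mem_filter, mem_product, mem_Icc, mem_Icc] at ht
    exact Or.inr ht.1
  have hbd : ∀ t ∈ S, (-(Y : ℤ) ≤ t.1 ∧ t.1 ≤ Y) ∧ (-(Y : ℤ) ≤ t.2 ∧ t.2 ≤ Y) := by
    intro t ht
    rw [hS, mem_filter, mem_product, mem_Icc, mem_Icc] at ht
    exact ht.1
  let F : ℤ × ℤ → ℕ × ℕ := fun t => ((t.1 + (Y + 1)).toNat, (t.2 + (Y + 1)).toNat)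
  have hF : ∀ t ∈ S, -((Y : ℤ) + 1) + ((F t).1 : ℤ) = t.1 ∧
      -((Y : ℤ) + 1) + ((F t).2 : ℤ) = t.2 := by
    intro t ht
    obtain ⟨⟨h1, h2⟩, h3, h4⟩ := hbd t ht
    constructor
    · change -((Y : ℤ) + 1) + (((t.1 + (Y + 1)).toNat : ℕ) : ℤ) = t.1
      omega
    · change -((Y : ℤ) + 1) + (((t.2 + (Y + 1)).toNat : ℕ) : ℤ) = t.2
      omega
  have hinj : Set.InjOn F (S : Set (ℤ × ℤ)) := by
    intro t ht t' ht' h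
    obtain ⟨a1, a2⟩ := hF t (mem_coe.1 ht)
    obtain ⟨b1, b2⟩ := hF t' (mem_coe.1 ht')
    rw [h] at a1 a2
    exact Prod.ext (a1.symm.trans b1) (a2.symm.trans b2)
  have hsub : S.image F ⊆ S1 ∪ S2 := by
    intro t' ht'
    obtain ⟨t, ht, rfl⟩ := mem_image.1 ht'
    obtain ⟨e1, e2⟩ := hF t ht
    obtain ⟨⟨l1, l2⟩, l3, l4⟩ := hbd t ht
    have hm : F t ∈ Icc 1 X ×ˢ Icc 1 X := by
      rw [mem_product, mem_Icc, mem_Icc]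
      change (1 ≤ (t.1 + (Y + 1)).toNat ∧ (t.1 + (Y + 1)).toNat ≤ X) ∧
        (1 ≤ (t.2 + (Y + 1)).toNat ∧ (t.2 + (Y + 1)).toNat ≤ X)
      omega
    rw [hS, mem_filter] at ht
    obtain ⟨-, ht2, ht3⟩ := ht
    by_contra hcon
    rw [mem_union, not_or, hS1, hS2, mem_filter, mem_filter, e1, e2] at hcon
    obtain ⟨q1, q2⟩ := hcon
    apply ht3
    have d1 := not_not.1 (fun h => q1 ⟨hm, ht2, h⟩)
    have d2 := not_not.1 (fun h => q2 ⟨hm, ht2, h⟩)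
    obtain ⟨n1, n2, n3, n4, n5, n6⟩ := d1 _ _ rfl rfl
    obtain ⟨-, -, -, -, m5, -, -⟩ := d2 _ _ rfl rfl
    exact one_ok n1 n2 n3 b3 hδ n4 n5 n6 m5
  have hcard : S.card ≤ S1.card + S2.card := by
    rw [← card_image_of_injOn hinj]
    exact (card_le_card hsub).trans (card_union_le _ _)
  rw [← hS]
  have hcr : (S.card : ℝ) ≤ S1.card + S2.card := by exact_mod_cast hcard
  linarith

end Pool.Agent.Q17.LS
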