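import Pool.Agent.Q17.LS.Box
import Pool.Agent.Q17.IG.Fam

/-! The elements of order two of the Tate-Shafarevich group, for almost all curves with a rational
cyclic subgroup of order 4, by height. -/

set_option autoImplicit false

namespace Pool.Agent.Q17.LS

open Finset WeierstrassCurve
open Pool.Agent.TH841.SH.D
open Pool.Agent.TH841.LS (WI)
open Pool.Agent.W307.RT (Sh)
open Pool.Agent.Q17.IG (Fm df df_inj df_bd par par_spec Fm_lower)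

lemma ok_df {δ X : ℝ} {H : ℕ} {c : ℤ × ℤ} (hc : c ∈ Fm H)
    (h : Ok δ X (WI (df c).1 (df c).2)) : Ok δ X (Sh c.1 c.2) := by
  obtain ⟨k, h1, h2⟩ := h
  refine ⟨k, h1, ?_⟩
  obtain ⟨h3, h4⟩ := par_spec hc
  have S := sbW h3 h4
  have hf : Finite {x : Sha (WI (df c).1 (df c).2) // x + x = 0} := by
    apply Nat.finite_of_card_ne_zero
    rw [h2]
    positivity
  rw [← h2]
  exact card_iso S hf

open Classical in
/-- **almost all curves of the family** -/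
theorem fam (δ ε : ℝ) (hδ : 0 < δ) (hε : 0 < ε) : ∃ H0 : ℕ, ∀ H : ℕ, H0 ≤ H →
    (((Fm H).filter (fun c => ¬ Ok δ (H : ℝ) (Sh c.1 c.2))).card : ℝ) ≤
      ε * ((Fm H).card : ℝ) := by
  obtain ⟨C4, N1, hC4, hlow⟩ := Fm_lower
  obtain ⟨N0, hN0⟩ := box δ (ε / C4) hδ (by positivity)
  refine ⟨(N0 + N1 + 1) ^ 6, fun H hH => ?_⟩
  obtain ⟨M, hM0, hM⟩ : ∃ M : ℝ, 0 ≤ M ∧ M ^ 6 = H := by
    refine ⟨(H : ℝ) ^ ((1 : ℝ) / 6), by positivity, ?_⟩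
    rw [← Real.rpow_natCast, ← Real.rpow_mul (Nat.cast_nonneg H)]
    norm_num
  have hM1 : (N0 : ℝ) + N1 + 1 ≤ M := by
    have : ((N0 : ℝ) + N1 + 1) ^ 6 ≤ M ^ 6 := by
      rw [hM]
      exact_mod_cast hH
    exact (pow_le_pow_iff_left₀ (by positivity) hM0 (by norm_num)).1 this
  have hn0 : (0 : ℝ) ≤ N0 := Nat.cast_nonneg _
  have hn1 : (0 : ℝ) ≤ N1 := Nat.cast_nonneg _
  obtain ⟨N, hN⟩ : ∃ N : ℕ, N = ⌊14 * M⌋₊ := ⟨_, rfl⟩
  have a1 : (N : ℝ) ≤ 14 * M := by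
    rw [hN]
    exact Nat.floor_le (by linarith)
  have a2 : 14 * M < N + 1 := by
    rw [hN]
    exact Nat.lt_floor_add_one _
  have a3 : M ≤ N := by linarith
  have a4 : N0 + N1 ≤ N := by
    have : ((N0 + N1 : ℕ) : ℝ) ≤ N := by
      push_cast
      linarith
    exact_mod_cast this
  have a5 : N ^ 6 ≤ 14 ^ 6 * H := by
    have h1 : (N : ℝ) ^ 6 ≤ (14 * M) ^ 6 := pow_le_pow_left₀ (Nat.cast_nonneg _) a1 6
    rw [mul_pow, hM] at h1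
    exact_mod_cast h1
  have a6 : H ≤ N ^ 6 := by
    have h1 : M ^ 6 ≤ (N : ℝ) ^ 6 := pow_le_pow_left₀ hM0 a3 6
    rw [hM] at h1
    exact_mod_cast h1
  have h1 := hN0 N H (by omega) a5 a6
  have h2 := hlow N H (by omega) a5
  have key : ∀ x : ℤ, x.natAbs ^ 6 ≤ 14 ^ 6 * H → x ∈ Icc (-(N : ℤ)) N := by
    intro x hx
    have h4 : ((x.natAbs : ℕ) : ℝ) ^ 6 ≤ (14 * M) ^ 6 := by
      rw [mul_pow, hM]
      exact_mod_cast hx
    have h5 : ((x.natAbs : ℕ) : ℝ) ≤ 14 * M :=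
      (pow_le_pow_iff_left₀ (Nat.cast_nonneg _) (by linarith) (by norm_num)).1 h4
    have h6 : x.natAbs ≤ N := by
      rw [hN]
      exact Nat.le_floor h5
    rw [mem_Icc]
    omega
  have h3 : ((Fm H).filter (fun c => ¬ Ok δ (H : ℝ) (Sh c.1 c.2))).card ≤
      ((Icc (-(N : ℤ)) N ×ˢ Icc (-(N : ℤ)) N).filter (fun p : ℤ × ℤ => p ≠ 0 ∧
      ¬ Ok δ (H : ℝ) (WI p.1 p.2))).card := by
    refine card_le_card_of_injOn df (fun c hc => ?_)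
      ((df_inj H).mono fun c hc => (mem_filter.1 (mem_coe.1 hc)).1)
    obtain ⟨hcF, hok⟩ := mem_filter.1 (mem_coe.1 hc)
    obtain ⟨⟨n1, -, -⟩, b1, b2⟩ := df_bd H c hcF
    rw [mem_coe, mem_filter, mem_product]
    exact ⟨⟨key _ b1, key _ b2⟩, fun h0 => n1 (by rw [h0]; rfl), fun h0 => hok (ok_df hcF h0)⟩
  calc (((Fm H).filter (fun c => ¬ Ok δ (H : ℝ) (Sh c.1 c.2))).card : ℝ) ≤
        (((Icc (-(N : ℤ)) N ×ˢ Icc (-(N : ℤ)) N).filter (fun p : ℤ × ℤ => p ≠ 0 ∧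
        ¬ Ok δ (H : ℝ) (WI p.1 p.2))).card : ℝ) := Nat.cast_le.2 h3
    _ ≤ ε / C4 * (N : ℝ) ^ 2 := h1
    _ ≤ ε / C4 * (C4 * ((Fm H).card : ℝ)) := mul_le_mul_of_nonneg_left h2 (by positivity)
    _ = ε * ((Fm H).card : ℝ) := by
        field_simp

end Pool.Agent.Q17.LS
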