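import Pool.Agent.Q17.LS.Ker
import Pool.Agent.Q17.IG.Prp

/-! The elements of order 4 of the Tate-Shafarevich group and the isogenous curve. -/

set_option autoImplicit false

namespace Pool.Agent.Q17.LS

open Finset WeierstrassCurve
open Pool.Agent.TH841.SH.D
open Pool.Agent.TH841.LS (WI)
open Pool.Agent.TH841.PT (EQ)
open Pool.Agent.W307.RT (Sh HasT)
open Pool.Agent.Y676.IS (NH cls cls_surj sha_cls cls_add)
open Pool.Agent.Q17.IG (Sb nh nh_inv NHcomp Lk Sh_one)

/-- finiteness of the elements killed by 4 -/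
lemma fin_four {G : Type} [AddCommGroup G] (hf : Finite {x : G // x + x = 0}) :
    Finite {x : G // x + x + (x + x) = 0} := by
  classical
  let g : {x : G // x + x + (x + x) = 0} → {x : G // x + x = 0} := fun x => ⟨x.1 + x.1, x.2⟩
  let s : {x : G // x + x = 0} → {x : G // x + x + (x + x) = 0} := fun y =>
    if hy : ∃ x, g x = y then hy.choose else ⟨0, by simp⟩
  have hs : ∀ x, g (s (g x)) = g x := by
    intro x
    have hy : ∃ x', g x' = g x := ⟨x, rfl⟩
    have h1 : s (g x) = hy.choose := dif_pos hy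
    rw [h1]
    exact hy.choose_spec
  have hd : ∀ x, (x.1 - (s (g x)).1) + (x.1 - (s (g x)).1) = 0 := by
    intro x
    have h1 : (s (g x)).1 + (s (g x)).1 = x.1 + x.1 := congrArg Subtype.val (hs x)
    have h2 : (x.1 - (s (g x)).1) + (x.1 - (s (g x)).1) =
        (x.1 + x.1) - ((s (g x)).1 + (s (g x)).1) := by abel
    rw [h2, h1, sub_self]
  apply Finite.of_injective (fun x => ((⟨x.1 - (s (g x)).1, hd x⟩ : {x : G // x + x = 0}), g x))
  intro x y h
  obtain ⟨h1, h2⟩ := Prod.mk.inj h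
  have h3 : x.1 - (s (g x)).1 = y.1 - (s (g y)).1 := congrArg Subtype.val h1
  rw [h2] at h3
  exact Subtype.ext (sub_left_injective h3)

/-- the group version -/
lemma abs_four {G G' : Type} [AddCommGroup G] [AddCommGroup G'] (t : G →+ G') (t' : G' →+ G)
    (h : ∀ x, t' (t x) = x + x) (hf : Finite {x : G' // x + x = 0}) :
    Finite {x : G // x + x = 0 ∧ ∃ y, x = y + y} ∧
    Nat.card {x : G // x + x = 0 ∧ ∃ y, x = y + y} ≤ Nat.card {x : G' // x + x = 0} := by
  classical
  let H : AddSubgroup G := (nsmulAddMonoidHom (α := G) 4).ker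
  let B : AddSubgroup G' := H.map t
  have hH : ∀ x, x ∈ H ↔ 4 • x = 0 := fun x => Iff.rfl
  have hBmem : ∀ b : B, ∃ y, 4 • y = 0 ∧ t y = b.1 := fun b => by
    obtain ⟨y, hy, h1⟩ := AddSubgroup.mem_map.1 b.2
    exact ⟨y, hy, h1⟩
  have e4 : ∀ {A : Type} [AddCommGroup A] (x : A), x + x + (x + x) = 4 • x := by
    intro A _ x
    rw [← two_nsmul, ← two_nsmul, ← mul_nsmul]
  have hB4 : ∀ b : B, b.1 + b.1 + (b.1 + b.1) = 0 := fun b => by
    obtain ⟨y, h1, h2⟩ := hBmem b
    rw [e4, ← h2, ← map_nsmul, h1, map_zero]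
  have hf4 := fin_four hf
  have hBf : Finite B := Finite.of_injective
    (fun b => (⟨b.1, hB4 b⟩ : {x : G' // x + x + (x + x) = 0})) (fun a b hab =>
      Subtype.ext (congrArg (fun z : {x : G' // x + x + (x + x) = 0} => z.1) hab))
  let f : B →+ G := t'.comp B.subtype
  let g : B →+ B := nsmulAddMonoidHom (α := B) 2
  have hle : g.range ≤ f.ker := by
    rintro _ ⟨b, rfl⟩
    obtain ⟨y, h1, h2⟩ := hBmem b
    change t' ((2 • b : B) : G') = 0
    rw [AddSubgroup.coe_nsmul, ← h2, map_nsmul, h, ← two_nsmul, ← mul_nsmul]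
    exact h1
  have c1 := f.ker.card_mul_index
  have c2 := g.ker.card_mul_index
  rw [AddSubgroup.index_ker] at c1 c2
  have c3 : Nat.card g.range ≤ Nat.card f.ker :=
    Nat.card_le_card_of_injective _ (AddSubgroup.inclusion_injective hle)
  have c4 : 0 < Nat.card g.range := Nat.card_pos
  have c5 : Nat.card f.range ≤ Nat.card g.ker := by
    have h1 : Nat.card g.range * Nat.card f.range ≤ Nat.card g.range * Nat.card g.ker := by
      calc Nat.card g.range * Nat.card f.range ≤ Nat.card f.ker * Nat.card f.range :=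
            Nat.mul_le_mul_right _ c3
        _ = Nat.card g.range * Nat.card g.ker := by rw [c1, ← c2, mul_comm]
    exact Nat.le_of_mul_le_mul_left h1 c4
  have c6 : Nat.card g.ker ≤ Nat.card {x : G' // x + x = 0} := by
    refine Nat.card_le_card_of_injective (fun b => (⟨b.1.1, by
      have h1 : 2 • b.1 = 0 := b.2
      have h2 : 2 • b.1.1 = 0 := by
        rw [← AddSubgroup.coe_nsmul, h1]
        rfl
      rw [← two_nsmul]
      exact h2⟩ : {x : G' // x + x = 0})) fun a b hab => ?_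
    exact Subtype.ext (Subtype.ext (congrArg (fun z : {x : G' // x + x = 0} => z.1) hab))
  have hfr : Finite f.range := Finite.of_surjective f.rangeRestrict f.rangeRestrict_surjective
  have key : ∀ x : {x : G // x + x = 0 ∧ ∃ y, x = y + y}, x.1 ∈ f.range := by
    rintro ⟨x, hx, y, hy⟩
    have h4 : 4 • y = 0 := by
      rw [← e4, ← hy, hx]
    refine ⟨⟨t y, AddSubgroup.mem_map.2 ⟨y, h4, rfl⟩⟩, ?_⟩
    change t' (t y) = x
    rw [h, hy]
  have hinj : Function.Injective
      (fun x : {x : G // x + x = 0 ∧ ∃ y, x = y + y} => (⟨x.1, key x⟩ : f.range)) :=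
    fun a b hab => Subtype.ext (congrArg (fun z : f.range => z.1) hab)
  exact ⟨Finite.of_injective _ hinj, (Nat.card_le_card_of_injective _ hinj).trans (c5.trans c6)⟩

/-- the Tate-Shafarevich groups of two isogenous curves -/
theorem four_le {W W' : WeierstrassCurve ℚ} (θ : NH W W') (θ' : NH W' W)
    (h : ∀ (L : Type) [Field L] [Algebra ℚ L] (P : Pt W L), θ'.f L (θ.f L P) = P + P)
    (hf : Finite {x : Sha W' // x + x = 0}) :
    Finite {x : Sha W // x + x = 0 ∧ ∃ y, x = y + y} ∧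
    Nat.card {x : Sha W // x + x = 0 ∧ ∃ y, x = y + y} ≤ Nat.card {x : Sha W' // x + x = 0} := by
  refine abs_four θ.sha θ'.sha (fun x => ?_) hf
  obtain ⟨c, rfl⟩ := cls_surj x
  rw [sha_cls, sha_cls, ← cls_add]
  apply congrArg
  apply Subtype.ext
  funext σ
  exact h _ (c.1 σ)

lemma nh_inv' {u r : ℚ} {W W' : WeierstrassCurve ℚ} (S : Sb u r W W') (F : Type) [Field F]
    [Algebra ℚ F] (P : Pt W' F) : (nh S).f F ((nh S.inv).f F P) = P := by
  have hinj : Function.Injective ((nh S.inv).f F) := fun x y h => by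
    rw [← nh_inv S.inv F x, h, nh_inv S.inv F y]
  exact hinj (nh_inv S F _)

/-- the homomorphisms in both directions -/
theorem both {c c' : ℤ × ℤ} {e q : ℤ} {u : ℕ} {r : ℤ} (L : Lk c c' e q u r) :
    ∃ (θ : NH (Sh c.1 c.2) (Sh c'.1 c'.2)) (θ' : NH (Sh c'.1 c'.2) (Sh c.1 c.2)),
      (∀ (F : Type) [Field F] [Algebra ℚ F] (P : Pt (Sh c.1 c.2) F),
        θ'.f F (θ.f F P) = P + P) ∧
      ∀ (F : Type) [Field F] [Algebra ℚ F] (P : Pt (Sh c'.1 c'.2) F),
        θ.f F (θ'.f F P) = P + P := by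
  obtain ⟨hq, h9⟩ := L.ne
  have h1 : 3 * e + 2 * q ≠ 3 * e - 2 * q := by
    intro h
    apply hq
    omega
  have h9' : (3 * e + 2 * q) * (3 * e - 2 * q) ≠ 0 := by
    intro h
    apply h9
    linear_combination -h
  obtain ⟨ψ, φ, e1, e2, -⟩ := Pool.Agent.Y676.IS.exists_NH h1 (left_ne_zero_of_mul h9')
    (right_ne_zero_of_mul h9')
  have S := sbW L.hc1 L.hc2
  have S2 := L.sb 1
  rw [Sh_one, one_mul, one_mul] at S2
  refine ⟨NHcomp (nh S2) (NHcomp ψ (nh S)), NHcomp (NHcomp (nh S.inv) φ) (nh S2.inv),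
    fun F _ _ P => ?_, fun F _ _ P => ?_⟩
  · change (nh S.inv).f F (φ.f F ((nh S2.inv).f F ((nh S2).f F (ψ.f F ((nh S).f F P))))) = P + P
    rw [nh_inv, e1, map_add, nh_inv]
  · change (nh S2).f F (ψ.f F ((nh S).f F ((nh S.inv).f F (φ.f F ((nh S2.inv).f F P))))) = P + P
    rw [nh_inv', e2, map_add, nh_inv']

end Pool.Agent.Q17.LS
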