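import Pool.Agent.Y676.IS.Cnt
import Pool.Agent.Y497.IS.LCB
import Pool.Agent.Y500.IS.LQU
import Pool.Agent.Q17.IG.One

/-! The elements of order two of the Tate-Shafarevich group of the quotient by a point of order two:
upper and lower bounds, and the transfer to an isomorphic curve. -/

set_option autoImplicit false

namespace Pool.Agent.Q17.LS

open WeierstrassCurve
open Pool.Agent.TH841.SH.D
open Pool.Agent.TH841.LS (WI LocI T0 coc)
open Pool.Agent.TH841.PT (EQ)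
open Pool.Agent.TH841.NO (SQ fo)
open Pool.Agent.W307.RT (Sh)
open Pool.Agent.Y676.IS (NH cls cls_surj sha_cls cls_zero_iff cls_eq exists_NH div2 cob_shaCoc coc_of)
open Pool.Agent.Q17.IG (Sb nh nh_inv)

section

attribute [-instance] DivisionRing.toRatAlgebra

/-- the classes killed by the isogeny -/
theorem ker_cls {A B : ℤ} (h : A ≠ B) (hA : A ≠ 0) (hB : B ≠ 0) :
    ∃ ψ : NH (WI A B) (EQ A B), ∀ x : Sha (WI A B), ψ.sha x = 0 →
      ∃ d : ℤ, Squarefree d ∧ ∃ hd : coc h d ∈ shaCoc (WI A B),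
        cls (WI A B) ⟨coc h d, hd⟩ = x := by
  obtain ⟨ψ, φ, h1, h2, h3⟩ := exists_NH h hA hB
  refine ⟨ψ, fun x hz => ?_⟩
  obtain ⟨c, rfl⟩ := cls_surj x
  rw [sha_cls, cls_zero_iff] at hz
  obtain ⟨Q, hQ⟩ := hz
  obtain ⟨R, hR⟩ := div2 h hA hB Q
  have hP : ψ.f _ (φ.f _ R) = Q := by rw [h2, hR]
  obtain ⟨P, hPd⟩ : ∃ P, P = φ.f (AlgebraicClosure ℚ) R := ⟨_, rfl⟩
  rw [← hPd] at hP
  let c' : Coch (WI A B) := fun σ => c.1 σ - (act (WI A B) σ.toAlgHom P - P)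
  have hd : IsCob (WI A B) (c.1 - c') := by
    refine ⟨P, fun σ => ?_⟩
    change c.1 σ - (c.1 σ - (act (WI A B) σ.toAlgHom P - P)) = _
    abel
  have hsub : c' = c.1 - (c.1 - c') := by abel
  have hbc : c.1 - c' ∈ shaCoc (WI A B) := cob_shaCoc hd
  have hc' : c' ∈ shaCoc (WI A B) := by
    rw [hsub]
    exact sub_mem c.2 hbc
  have hv : ∀ σ, c' σ = 0 ∨ c' σ = T0 h (AlgebraicClosure ℚ) := by
    intro σ
    apply h3
    change ψ.f _ (c.1 σ - (act (WI A B) σ.toAlgHom P - P)) = 0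
    have h4 : ψ.f _ (c.1 σ) = act (EQ A B) σ.toAlgHom Q - Q := hQ σ
    rw [map_sub, map_sub, ← ψ.nat, hP, h4, sub_self]
  obtain ⟨d, hsq, hcd⟩ := coc_of h hc'.1 hv
  rw [hcd] at hc'
  refine ⟨d, hsq, hc', ?_⟩
  apply cls_eq
  have e1 : coc h d - c.1 = -(c.1 - c') := by
    rw [← hcd]
    abel
  rw [show ((⟨coc h d, hc'⟩ : shaCoc (WI A B)) : Coch (WI A B)) = coc h d from rfl, e1]
  exact cob_neg hd

end

/-- the classes killed by the isogeny, with the quartics -/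
theorem ker_SQ {A B : ℤ} (h : A ≠ B) (hA : A ≠ 0) (hB : B ≠ 0) :
    ∃ ψ : NH (WI A B) (EQ A B), ∀ x : Sha (WI A B), ψ.sha x = 0 →
      ∃ d ∈ SQ (-(A + B)) (A * B), ∃ hd : coc h d ∈ shaCoc (WI A B),
        cls (WI A B) ⟨coc h d, hd⟩ = x := by
  obtain ⟨ψ, hψ⟩ := ker_cls h hA hB
  refine ⟨ψ, fun x hx => ?_⟩
  obtain ⟨d, hsq, hd, he⟩ := hψ x hx
  exact ⟨d, Pool.Agent.Y500.IS.lqu A B d hA hB h hsq
    (Pool.Agent.Y497.IS.lcb A B h d hA hB hsq.ne_zero ℝ hd.2.2)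
    (fun p _ => Pool.Agent.Y497.IS.lcb A B h d hA hB hsq.ne_zero ℚ_[p] (hd.2.1 p)), hd, he⟩

/-- **the upper bound** -/
theorem card_le {A B : ℤ} (h : A ≠ B) (hA : A ≠ 0) (hB : B ≠ 0)
    (hf : Finite (ShaTor (EQ A B) (2 ^ 1))) :
    Finite {x : Sha (WI A B) // x + x = 0} ∧ Nat.card {x : Sha (WI A B) // x + x = 0} ≤
      (SQ (-(A + B)) (A * B)).ncard * Nat.card (ShaTor (EQ A B) (2 ^ 1)) := by
  classical
  obtain ⟨ψ, hψ⟩ := ker_SQ h hA hB
  have hSf : Finite (SQ (-(A + B)) (A * B)) :=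
    Pool.Agent.TH841.NO.sq_finite (mul_ne_zero hA hB)
  let g : {x : Sha (WI A B) // x + x = 0} → ShaTor (EQ A B) (2 ^ 1) := fun x =>
    ⟨ψ.sha x.1, by rw [pow_one, two_nsmul, ← map_add, x.2, map_zero]⟩
  let s : ShaTor (EQ A B) (2 ^ 1) → {x : Sha (WI A B) // x + x = 0} := fun y =>
    if hy : ∃ x, g x = y then hy.choose else ⟨0, add_zero 0⟩
  have hs : ∀ x, g (s (g x)) = g x := by
    intro x
    have hy : ∃ x', g x' = g x := ⟨x, rfl⟩
    have h1 : s (g x) = hy.choose := dif_pos hy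
    rw [h1]
    exact hy.choose_spec
  have hd : ∀ x : {x : Sha (WI A B) // x + x = 0}, ∃ d : SQ (-(A + B)) (A * B),
      ∃ hd : coc h d.1 ∈ shaCoc (WI A B), cls (WI A B) ⟨coc h d.1, hd⟩ = x.1 - (s (g x)).1 := by
    intro x
    have h1 : ψ.sha (x.1 - (s (g x)).1) = 0 := by
      have h2 : ψ.sha (s (g x)).1 = ψ.sha x.1 := congrArg Subtype.val (hs x)
      rw [map_sub, h2, sub_self]
    obtain ⟨d, hd, h2, h3⟩ := hψ _ h1
    exact ⟨⟨d, hd⟩, h2, h3⟩
  choose dd hdd using hd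
  have hinj : Function.Injective (fun x : {x : Sha (WI A B) // x + x = 0} => (dd x, g x)) := by
    intro x x' hxx
    obtain ⟨e1, e2⟩ := Prod.mk.inj hxx
    obtain ⟨a1, a2⟩ := hdd x
    obtain ⟨b1, b2⟩ := hdd x'
    have e3 : (⟨coc h (dd x).1, a1⟩ : shaCoc (WI A B)) = ⟨coc h (dd x').1, b1⟩ := by
      apply Subtype.ext
      change coc h (dd x).1 = coc h (dd x').1
      rw [e1]
    rw [e3, b2, e2] at a2
    exact Subtype.ext (sub_left_injective a2).symm
  have hfin : Finite {x : Sha (WI A B) // x + x = 0} := Finite.of_injective _ hinj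
  refine ⟨hfin, (Nat.card_le_card_of_injective _ hinj).trans (le_of_eq ?_)⟩
  rw [Nat.card_prod, Nat.card_coe_set_eq]

/-- elementary abelian groups -/
lemma two_card {G : Type} [AddCommGroup G] (hf : Finite {x : G // x + x = 0}) :
    ∃ k : ℕ, Nat.card {x : G // x + x = 0} = 2 ^ k := by
  let V : AddSubgroup G :=
    { carrier := {x | x + x = 0}
      zero_mem' := add_zero 0
      add_mem' := by
        intro x y hx hy
        change x + y + (x + y) = 0
        have hx' : x + x = 0 := hx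
        have hy' : y + y = 0 := hy
        have : x + y + (x + y) = (x + x) + (y + y) := by abel
        rw [this, hx', hy', add_zero]
      neg_mem' := by
        intro x hx
        change -x + -x = 0
        have hx' : x + x = 0 := hx
        rw [← neg_add, hx', neg_zero] }
  have hVf : Finite V := hf
  have hmod : ∀ x : V, 2 • x = 0 := fun x => Subtype.ext (by
    rw [two_nsmul]
    exact x.2)
  let _ : Module (ZMod 2) V := AddCommGroup.zmodModule hmod
  have : Module.Finite (ZMod 2) V := Module.Finite.of_finite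
  refine ⟨Module.finrank (ZMod 2) V, ?_⟩
  have h1 : Nat.card V = 2 ^ Module.finrank (ZMod 2) V := by
    rw [Module.natCard_eq_pow_finrank (K := ZMod 2), Nat.card_zmod]
  exact h1

lemma le_card {G : Type} [AddCommGroup G] (hf : Finite {x : G // x + x = 0}) {k : ℕ}
    (φ : (Fin k → ZMod 2) →+ G) (hi : Function.Injective φ) :
    2 ^ k ≤ Nat.card {x : G // x + x = 0} := by
  have h1 : ∀ y, φ y + φ y = 0 := fun y => by
    rw [← map_add]
    have h2 : y + y = 0 := by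
      funext i
      exact CharTwo.add_self_eq_zero _
    rw [h2, map_zero]
  have h2 := Nat.card_le_card_of_injective (fun y => (⟨φ y, h1 y⟩ : {x : G // x + x = 0}))
    (fun y y' h => hi (congrArg Subtype.val h))
  have h3 : Nat.card (Fin k → ZMod 2) = 2 ^ k := by
    rw [Nat.card_eq_fintype_card]
    simp
  rwa [h3] at h2

lemma sha_left {u r : ℚ} {W W' : WeierstrassCurve ℚ} (S : Sb u r W W') (x : Sha W) :
    (nh S.inv).sha ((nh S).sha x) = x := by
  obtain ⟨c, rfl⟩ := cls_surj x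
  rw [sha_cls, sha_cls]
  apply congrArg
  apply Subtype.ext
  funext σ
  exact nh_inv S _ (c.1 σ)

lemma card_iso {u r : ℚ} {W W' : WeierstrassCurve ℚ} (S : Sb u r W W')
    (hf : Finite {x : Sha W' // x + x = 0}) :
    Nat.card {x : Sha W // x + x = 0} = Nat.card {x : Sha W' // x + x = 0} := by
  have key : ∀ {u r : ℚ} {W W' : WeierstrassCurve ℚ} (S : Sb u r W W'),
      ∃ f : {x : Sha W // x + x = 0} → {x : Sha W' // x + x = 0}, Function.Injective f := by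
    intro u r W W' S
    refine ⟨fun x => ⟨(nh S).sha x.1, by rw [← map_add, x.2, map_zero]⟩, fun x y h => ?_⟩
    have h1 : (nh S).sha x.1 = (nh S).sha y.1 := congrArg Subtype.val h
    apply Subtype.ext
    rw [← sha_left S x.1, h1, sha_left S y.1]
  obtain ⟨f, hf1⟩ := key S
  obtain ⟨g, hg1⟩ := key S.inv
  have hf2 : Finite {x : Sha W // x + x = 0} := Finite.of_injective f hf1
  exact le_antisymm (Nat.card_le_card_of_injective f hf1) (Nat.card_le_card_of_injective g hg1)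

lemma sbW {A B e q : ℤ} (hA : A = q ^ 2 - 3 * e ^ 2) (hB : B = 2 * e ^ 3 - q ^ 2 * e) :
    Sb (2 : ℚ) (-(4 * (e : ℚ))) (Sh A B) (WI (3 * e + 2 * q) (3 * e - 2 * q)) := by
  refine ⟨two_ne_zero, rfl, rfl, rfl, rfl, ?_, ?_, ?_⟩
  · change 3 * (-(4 * (e : ℚ))) + 2 * (((3 * e + 2 * q : ℤ) : ℚ) +
      ((3 * e - 2 * q : ℤ) : ℚ)) = 2 ^ 2 * 0
    push_cast
    ring
  · change 3 * (-(4 * (e : ℚ))) ^ 2 + 2 * (2 * (((3 * e + 2 * q : ℤ) : ℚ) +
      ((3 * e - 2 * q : ℤ) : ℚ))) * (-(4 * (e : ℚ))) +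
      (((3 * e + 2 * q : ℤ) : ℚ) - ((3 * e - 2 * q : ℤ) : ℚ)) ^ 2 =
      2 ^ 4 * ((A : ℤ) : ℚ)
    rw [hA]
    push_cast
    ring
  · change (-(4 * (e : ℚ))) ^ 3 + (2 * (((3 * e + 2 * q : ℤ) : ℚ) +
      ((3 * e - 2 * q : ℤ) : ℚ))) * (-(4 * (e : ℚ))) ^ 2 +
      (((3 * e + 2 * q : ℤ) : ℚ) - ((3 * e - 2 * q : ℤ) : ℚ)) ^ 2 *
      (-(4 * (e : ℚ))) + 0 = 2 ^ 6 * ((B : ℤ) : ℚ)
    rw [hB]
    push_cast
    ring

end Pool.Agent.Q17.LS
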