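import Pool.Agent.Q17.LS.Rn
import Pool.Agent.Q17.QF.Pos
import Pool.Agent.Q97.PT.Main
import Pool.Agent.Y667.OG.Main
import Pool.Agent.Y667.QKE.Main

/-! Ranks and root numbers over number fields for the curves with a rational cyclic subgroup of
order 4. -/

set_option autoImplicit false

namespace Pool.Agent.Q17.LS.NF

open Finset WeierstrassCurve
open Pool.Agent.TH841.SH.D (Sha Pt)
open Pool.Agent.W307.RT (Sh HasT Cv)
open Pool.Agent.Y676.IS (NH)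
open Pool.Agent.Q17.IG (Lk Q4)
open Pool.Agent.Q97.PT (rk EK OddClosure rk_closure root_closure root_Q EK_Q)
open Pool.Agent.Y667.OG (TOG RootNumberK)
open Pool.Agent.Y667.QK.R.E (TwE Tup8)

/-- isogenies and the rank -/
theorem rank_le {F : Type} [Field F] [NumberField F] [DecidableEq F]
    {W W' : WeierstrassCurve ℚ} (θ : NH W W') (θ' : NH W' W)
    (h : ∀ (L : Type) [Field L] [Algebra ℚ L] (P : Pt W L), θ'.f L (θ.f L P) = P + P) :
    Module.rank ℤ (W.baseChange F).toAffine.Point ≤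
      Module.rank ℤ (W'.baseChange F).toAffine.Point := by
  rename_i inst
  obtain rfl : inst = Classical.decEq F := Subsingleton.elim _ _
  let _ : DecidableEq F := Classical.decEq F
  let f : (W.baseChange F).toAffine.Point →+ (W'.baseChange F).toAffine.Point := θ.f F
  let f' : (W'.baseChange F).toAffine.Point →+ (W.baseChange F).toAffine.Point := θ'.f F
  have hff : ∀ P, f' (f P) = P + P := fun P => h F P
  exact Pool.Agent.Q17.IG.rank_le' f fun x hx => by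
      rw [← hff, hx, map_zero]

/-- the ranks of the isogenous curves over a number field -/
theorem rkF_eq {c c' : ℤ × ℤ} {e q : ℤ} {u : ℕ} {r : ℤ} (L : Lk c c' e q u r) (K : Type) [Field K]
    [NumberField K] : rk K c = rk K c' := by
  classical
  obtain ⟨θ, θ', h1, h2⟩ := both L
  have h3 := rank_le (F := K) θ θ' h1
  have h4 := rank_le (F := K) θ' θ h2
  rw [EK_Q, EK_Q] at h3 h4
  unfold rk
  rw [Module.finrank, Module.finrank]
  congr 1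
  convert le_antisymm h3 h4 using 1

/-- **the curves linked with a curve of `TOG r`** -/
theorem og_of {c : ℤ × ℤ} {r : ℕ} (h : Q4 (TOG r) c) :
    ∃ c' : ℤ × ℤ, (∃ (e q : ℤ) (u : ℕ) (s : ℤ), Lk c c' e q u s) ∧
      2 ^ Pool.Agent.TH841.SH.D.rk (Sh c.1 c.2) *
        Nat.card {x : Sha (Sh c'.1 c'.2) // x + x = 0} = 2 ^ r ∧
      ∀ (K : Type) [Field K] [NumberField K], OddClosure ℚ K →
        RootNumberK (EK K c'.1 c'.2) ((-1) ^ r) ∧
        Even (rk K c + Pool.Agent.TH841.SH.D.rk (Sh c.1 c.2)) := by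
  obtain ⟨c', hS, hT, e, q, u, s, L⟩ := h
  obtain ⟨-, ⟨h1, h2⟩, -⟩ := Pool.Agent.Y667.SX.sx_of L.D' hT hS.1.1 hS.1.2.1
  have h3 : Pool.Agent.TH841.SH.D.rk (Sh c.1 c.2) = rk ℚ c' := by
    rw [rk_eq L]
    exact Pool.Agent.Q97.PT.rk_Q c'
  refine ⟨c', ⟨e, q, u, s, L⟩, ?_, fun K _ _ hK => ⟨root_closure hK (root_Q hS.2), ?_⟩⟩
  · rw [rk_eq L]
    exact h2
  · rw [rkF_eq L K, h3]
    exact rk_closure hK L.D' hT

/-- **the curves linked with a curve of `TwE d`** -/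
theorem twe_of {m : ℕ} {d : Fin m → ℕ} (hd : ∀ i, (d i : ℤ) ≠ 0) {c : ℤ × ℤ}
    (h : Q4 (TwE (fun j => (d j : ℤ))) c) :
    ∃ c' : ℤ × ℤ, (∃ (e q : ℤ) (u : ℕ) (s : ℤ), Lk c c' e q u s) ∧
      ∀ (F : Type) [Field F] [NumberField F], Pool.Agent.TH841.NF.Gen F (fun j => (d j : ℤ)) →
        rk F c = 0 ∧
        ∀ (K : Type) [Field K] [NumberField K] [Algebra F K], OddClosure F K →
          RootNumberK (EK K c'.1 c'.2) 1 ∧ Even (rk K c) := by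
  obtain ⟨c', hS, hT, e, q, u, s, L⟩ := h
  refine ⟨c', ⟨e, q, u, s, L⟩, fun F _ _ hF => ?_⟩
  have h1 : rk F c' = 0 :=
    (Pool.Agent.Y667.QK.field_of hd L.D' hT hS.1 F hF).1
  refine ⟨by rw [rkF_eq L F, h1], fun K _ _ _ hK => ⟨root_closure hK ?_, ?_⟩⟩
  · have h2 := hS.2 F hF
    rw [← EK_Q]
    exact h2
  · have h2 := rk_closure hK L.D' hT
    rw [h1, add_zero] at h2
    rw [rkF_eq L K]
    exact h2

lemma tog_pos (r : ℕ) : ∃ c : ℝ, 0 < c ∧ ∃ H0 : ℕ, ∀ H : ℕ, H0 ≤ H →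
    ∃ S : Finset (ℤ × ℤ), (S : Set (ℤ × ℤ)) ⊆ {k | k ∈ Cv 2 H ∧ TOG r k} ∧
      c * ((Cv 2 H).card : ℝ) ≤ (S.card : ℝ) := by
  classical
  obtain ⟨c, hc, H0, h⟩ := Pool.Agent.Y667.OG.curvesOG r
  exact ⟨c, hc, H0, fun H hH => ⟨_, fun k hk => mem_filter.1 (mem_coe.1 hk), h H hH⟩⟩

lemma twe_pos (m N : ℕ) (hm : 2 ≤ m) : ∃ Lst : Finset (Fin m → ℕ), (∀ d ∈ Lst, Tup8 m N d) ∧
    ∃ c : ℝ, 0 < c ∧ ∃ H0 : ℕ, ∀ H : ℕ, H0 ≤ H → ∃ d ∈ Lst,
      ∃ S : Finset (ℤ × ℤ), (S : Set (ℤ × ℤ)) ⊆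
        {k | k ∈ Cv 2 H ∧ TwE (fun j => (d j : ℤ)) k} ∧
      c * ((Cv 2 H).card : ℝ) ≤ (S.card : ℝ) := by
  classical
  obtain ⟨L, hL, δ, hδ, H0, h⟩ := Pool.Agent.Y667.QK.R.E.mainH m N hm
  refine ⟨L, hL, δ, hδ, H0, fun H hH => ?_⟩
  obtain ⟨d, hd, hle⟩ := h H hH
  exact ⟨d, hd, _, fun k hk => mem_filter.1 (mem_coe.1 hk), hle⟩

end Pool.Agent.Q17.LS.NF
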