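import Pool.Agent.Q17.LS.Fou
import Pool.Agent.Y667.SX.Main

/-! Rank, 4-rank of the Tate-Shafarevich group and root number for the curves with a rational cyclic
subgroup of order 4. -/

set_option autoImplicit false

namespace Pool.Agent.Q17.LS

open Finset WeierstrassCurve
open Pool.Agent.TH841.SH.D
open Pool.Agent.W307.RT (Sh HasT Cv)
open Pool.Agent.Y676.IS (NH)
open Pool.Agent.Q17.IG (Lk Sh_one roots_Ok pt_two Q4)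

lemma fin_rk {c : ℤ × ℤ} (hD : 4 * c.1 ^ 3 + 27 * c.2 ^ 2 ≠ 0) (h : Pool.Agent.Y679.Cr.Ok c) :
    Module.Finite ℤ (Sh c.1 c.2).toAffine.Point := by
  obtain ⟨e1, e2, e3, he⟩ := roots_Ok c h
  have := Pool.Agent.W307.RG.fin_tw hD he (d := 1) one_ne_zero
  rw [Sh_one] at this
  exact this

/-- the ranks of the two isogenous curves are equal -/
theorem rk_eq {c c' : ℤ × ℤ} {e q : ℤ} {u : ℕ} {r : ℤ} (L : Lk c c' e q u r) :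
    rk (Sh c.1 c.2) = rk (Sh c'.1 c'.2) := by
  obtain ⟨θ, θ', h1, h2⟩ := both L
  have hr := le_antisymm (pt_two θ θ' h1) (pt_two θ' θ h2)
  unfold rk
  rw [Module.finrank, Module.finrank, hr]

/-- **the curves linked with a curve of `TPR r`** -/
theorem rn_of {c : ℤ × ℤ} {r : ℕ} (h : Q4 (Pool.Agent.Y667.PA.TPR r) c) :
    ∃ c' : ℤ × ℤ, (∃ (e q : ℤ) (u : ℕ) (s : ℤ), Lk c c' e q u s) ∧
      HasT 2 (Sh c'.1 c'.2) ∧
      2 ^ rk (Sh c.1 c.2) * Nat.card {x : Sha (Sh c'.1 c'.2) // x + x = 0} = 2 ^ r ∧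
      2 ^ rk (Sh c.1 c.2) * Nat.card {x : Sha (Sh c.1 c.2) // x + x = 0 ∧ ∃ y, x = y + y} ≤
        2 ^ r ∧
      Pool.Agent.Y667.PA.TPR r c' := by
  obtain ⟨c', hS, hT, e, q, u, s, L⟩ := h
  obtain ⟨-, ⟨h1, h2⟩, -⟩ := Pool.Agent.Y667.SX.sx_of L.D' hT hS.1 hS.2.1
  obtain ⟨θ, θ', h3, h4⟩ := both L
  have h5 : 2 ^ rk (Sh c.1 c.2) * Nat.card {x : Sha (Sh c'.1 c'.2) // x + x = 0} = 2 ^ r := by
    rw [rk_eq L]
    exact h2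
  refine ⟨c', ⟨e, q, u, s, L⟩, hT, h5, ?_, hS⟩
  rw [← h5]
  exact Nat.mul_le_mul_left _ (four_le θ θ' h3 h1).2

lemma tpr_pos (r : ℕ) : ∃ c : ℝ, 0 < c ∧ ∃ H0 : ℕ, ∀ H : ℕ, H0 ≤ H →
    ∃ S : Finset (ℤ × ℤ), (S : Set (ℤ × ℤ)) ⊆ {k | k ∈ Cv 2 H ∧ Pool.Agent.Y667.PA.TPR r k} ∧
      c * ((Cv 2 H).card : ℝ) ≤ (S.card : ℝ) := by
  classical
  obtain ⟨c, hc, H0, h⟩ := Pool.Agent.Y667.PA.curvesPR r
  exact ⟨c, hc, H0, fun H hH => ⟨_, fun k hk => mem_filter.1 (mem_coe.1 hk), h H hH⟩⟩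

end Pool.Agent.Q17.LS
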