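import Pool.Agent.Q17.LS.Box
import Pool.Agent.Q17.IG.Fam

/-! The elements of order two of the Tate-Shafarevich groups of the quadratic twists by a fixed
integer, for almost all pairs of a box and for almost all curves of the family. -/

set_option autoImplicit false

namespace Pool.Agent.Q17.LS.TW

open Finset WeierstrassCurve
open Pool.Agent.TH841.SH.D
open Pool.Agent.TH841.LS (WI big_loglog)
open Pool.Agent.W307.RT (Sh)
open Pool.Agent.Q17.IG (Fm Sb df df_inj df_bd par par_spec Fm_lower)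

variable (D : ℤ)

open Classical in
/-- the coprime pairs -/
noncomputable def Tg (D : ℤ) (δ : ℝ) (N H g : ℕ) : Finset (ℤ × ℤ) :=
  (Icc (-((N / g : ℕ) : ℤ)) ((N / g : ℕ) : ℤ) ×ˢ
    Icc (-((N / g : ℕ) : ℤ)) ((N / g : ℕ) : ℤ)).filter (fun t : ℤ × ℤ => IsCoprime t.1 t.2 ∧
    ¬ Ok δ (H : ℝ) (WI (D * (g : ℤ) * t.1) (D * (g : ℤ) * t.2)))

lemma Tg_card {δ : ℝ} {N H g : ℕ} (hg : 0 < g) (hgN : g ≤ N) :
    ((Tg D δ N H g).card : ℝ) ≤ 9 * ((N : ℝ) ^ 2 * ((g : ℝ) ^ 2)⁻¹) := by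
  classical
  refine le_trans ?_ (width hg hgN)
  have h1 : (Tg D δ N H g).card ≤ (2 * (N / g) + 1) * (2 * (N / g) + 1) := by
    unfold Tg
    refine (card_filter_le _ _).trans (le_of_eq ?_)
    rw [card_product, Int.card_Icc]
    have h2 : (((N / g : ℕ) : ℤ) + 1 - -((N / g : ℕ) : ℤ)).toNat = 2 * (N / g) + 1 := by omega
    rw [h2]
  calc ((Tg D δ N H g).card : ℝ) ≤ (((2 * (N / g) + 1) * (2 * (N / g) + 1) : ℕ) : ℝ) :=
        Nat.cast_le.2 h1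
    _ = _ := by rw [Nat.cast_mul, sq]

open Classical in
/-- the decomposition by the greatest common divisor -/
lemma decomp (δ : ℝ) (N H : ℕ) :
    ((Icc (-(N : ℤ)) N ×ˢ Icc (-(N : ℤ)) N).filter (fun p : ℤ × ℤ => p ≠ 0 ∧
      ¬ Ok δ (H : ℝ) (WI (D * p.1) (D * p.2)))).card ≤ ∑ g ∈ Ioc 0 N, (Tg D δ N H g).card := by
  have hsub : (Icc (-(N : ℤ)) N ×ˢ Icc (-(N : ℤ)) N).filter (fun p : ℤ × ℤ => p ≠ 0 ∧
      ¬ Ok δ (H : ℝ) (WI (D * p.1) (D * p.2))) ⊆ (Ioc 0 N).biUnion (fun g => (Tg D δ N H g).image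
        (fun t : ℤ × ℤ => ((g : ℤ) * t.1, (g : ℤ) * t.2))) := by
    intro p hp
    rw [mem_filter, mem_product, mem_Icc, mem_Icc] at hp
    obtain ⟨⟨⟨h1, h2⟩, h3, h4⟩, h5, h6⟩ := hp
    have hg : 0 < Int.gcd p.1 p.2 := by
      rw [Int.gcd_pos_iff]
      by_contra hcon
      rw [not_or, not_not, not_not] at hcon
      exact h5 (Prod.ext hcon.1 hcon.2)
    obtain ⟨g, u, v, hg0, hc, e1, e2⟩ := Int.exists_gcd_one' hg
    have n1 : p.1.natAbs = u.natAbs * g := by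
      rw [e1, Int.natAbs_mul, Int.natAbs_natCast]
    have n2 : p.2.natAbs = v.natAbs * g := by
      rw [e2, Int.natAbs_mul, Int.natAbs_natCast]
    have b1 : p.1.natAbs ≤ N := by omega
    have b2 : p.2.natAbs ≤ N := by omega
    have u1 : u.natAbs ≤ N / g := by
      rw [Nat.le_div_iff_mul_le hg0, ← n1]
      exact b1
    have v1 : v.natAbs ≤ N / g := by
      rw [Nat.le_div_iff_mul_le hg0, ← n2]
      exact b2
    have hgN : g ≤ N := by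
      have h7 : u ≠ 0 ∨ v ≠ 0 := by
        by_contra hcon
        rw [not_or, not_not, not_not] at hcon
        apply h5
        apply Prod.ext
        · rw [e1, hcon.1, zero_mul]
          rfl
        · rw [e2, hcon.2, zero_mul]
          rfl
      rcases h7 with h7 | h7
      · have h8 : 1 ≤ u.natAbs := Int.natAbs_pos.2 h7
        have h9 : g ≤ u.natAbs * g := Nat.le_mul_of_pos_left g h8
        omega
      · have h8 : 1 ≤ v.natAbs := Int.natAbs_pos.2 h7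
        have h9 : g ≤ v.natAbs * g := Nat.le_mul_of_pos_left g h8
        omega
    have f1 : (g : ℤ) * u = p.1 := by rw [e1, mul_comm]
    have f2 : (g : ℤ) * v = p.2 := by rw [e2, mul_comm]
    rw [mem_biUnion]
    refine ⟨g, mem_Ioc.2 ⟨hg0, hgN⟩, mem_image.2 ⟨(u, v), ?_, Prod.ext f1 f2⟩⟩
    unfold Tg
    rw [mem_filter, mem_product, mem_Icc, mem_Icc]
    refine ⟨⟨⟨?_, ?_⟩, ?_, ?_⟩, Int.isCoprime_iff_gcd_eq_one.2 hc, ?_⟩
    · change -((N / g : ℕ) : ℤ) ≤ u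
      omega
    · change u ≤ ((N / g : ℕ) : ℤ)
      omega
    · change -((N / g : ℕ) : ℤ) ≤ v
      omega
    · change v ≤ ((N / g : ℕ) : ℤ)
      omega
    · change ¬ Ok δ (H : ℝ) (WI (D * (g : ℤ) * u) (D * (g : ℤ) * v))
      rw [mul_assoc, mul_assoc, f1, f2]
      exact h6
  refine (card_le_card hsub).trans (card_biUnion_le.trans (sum_le_sum fun g _ => card_image_le))

open Classical in
/-- **almost all pairs of a box** -/
theorem box (hD : D ≠ 0) (δ ε : ℝ) (hδ : 0 < δ) (hε : 0 < ε) : ∃ N0 : ℕ, ∀ N H : ℕ, N0 ≤ N →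
    N ^ 6 ≤ 14 ^ 6 * H → H ≤ N ^ 6 →
    (((Icc (-(N : ℤ)) N ×ˢ Icc (-(N : ℤ)) N).filter (fun p : ℤ × ℤ => p ≠ 0 ∧
      ¬ Ok δ (H : ℝ) (WI (D * p.1) (D * p.2)))).card : ℝ) ≤ ε * (N : ℝ) ^ 2 := by
  obtain ⟨G, hG⟩ : ∃ G : ℕ, 18 / ε + 1 ≤ G := by
    obtain ⟨G, hG⟩ := exists_nat_gt (18 / ε + 1)
    exact ⟨G, hG.le⟩
  have hG1 : (1 : ℝ) ≤ G := by
    have : 0 < 18 / ε := by positivity
    linarith
  have hG0 : 0 < G := by exact_mod_cast (zero_lt_one.trans_le hG1)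
  have hGe : 18 / ε ≤ G := by linarith
  have hal : ∀ g : ℕ, ∃ Y0 : ℕ, 0 < g → ∀ Y : ℕ, Y0 ≤ Y →
      (((Icc (-(Y : ℤ)) Y ×ˢ Icc (-(Y : ℤ)) Y).filter (fun t : ℤ × ℤ => IsCoprime t.1 t.2 ∧
        ¬ Ok (δ / 2) ((2 * Y + 1 : ℕ) : ℝ) (WI (D * (g : ℤ) * t.1) (D * (g : ℤ) * t.2)))).card : ℝ) ≤
        ε / 36 * ((2 * Y + 1 : ℕ) : ℝ) ^ 2 := by
    intro g
    by_cases hg : 0 < g
    · obtain ⟨Y0, h⟩ := almost (D * (g : ℤ)) (mul_ne_zero hD (by exact_mod_cast hg.ne')) (δ / 2) (ε / 36) (by positivity)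
        (by positivity)
      exact ⟨Y0, fun _ => h⟩
    · exact ⟨0, fun h => absurd h hg⟩
  choose Y0 hY0 using hal
  obtain ⟨M3, hM3⟩ := big_loglog (δ / 2) (3 + δ) (by positivity)
  obtain ⟨Ys, hYs⟩ : ∃ Ys, Ys = ∑ g ∈ range (G + 1), Y0 g := ⟨_, rfl⟩
  obtain ⟨K, hK⟩ : ∃ K : ℕ, K = 42 ^ 6 := ⟨_, rfl⟩
  refine ⟨G * (Ys + 1) + G * (G ^ 6 + 1) + 14 * (M3 + K + 3), fun N H hN hNH hHN => ?_⟩
  have hN1 : G * (Ys + 1) ≤ N := by omega
  have hN2 : G * (G ^ 6 + 1) ≤ N := by omega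
  have hN3 : 14 * (M3 + K + 3) ≤ N := by omega
  have hGN : G ≤ N := by
    have : G * 1 ≤ G * (Ys + 1) := Nat.mul_le_mul_left _ (by omega)
    omega
  have hH1 : M3 + K + 3 ≤ H := by
    have h1 : (14 * (M3 + K + 3)) ^ 6 ≤ 14 ^ 6 * H := (Nat.pow_le_pow_left hN3 6).trans hNH
    rw [mul_pow] at h1
    have h2 : (M3 + K + 3) ^ 6 ≤ H := Nat.le_of_mul_le_mul_left h1 (by positivity)
    exact (Nat.le_self_pow (by norm_num) _).trans h2
  have hb := hM3 H (by omega)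
  have key : ∀ g ∈ Ioc 0 N, ((Tg D δ N H g).card : ℝ) ≤
      (if g ≤ G then ε / 4 else 9) * ((g : ℝ) ^ 2)⁻¹ * (N : ℝ) ^ 2 := by
    intro g hg
    obtain ⟨hg0, hgN⟩ := mem_Ioc.1 hg
    by_cases hgG : g ≤ G
    · rw [if_pos hgG]
      obtain ⟨Y, hY⟩ : ∃ Y, Y = N / g := ⟨_, rfl⟩
      have y1 : Ys ≤ Y := by
        rw [hY, Nat.le_div_iff_mul_le hg0]
        calc Ys * g ≤ (Ys + 1) * G := Nat.mul_le_mul (by omega) hgG
          _ = G * (Ys + 1) := mul_comm _ _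
          _ ≤ N := hN1
      have y2 : G ^ 6 + 1 ≤ Y := by
        rw [hY, Nat.le_div_iff_mul_le hg0]
        calc (G ^ 6 + 1) * g ≤ (G ^ 6 + 1) * G := Nat.mul_le_mul_left _ hgG
          _ = G * (G ^ 6 + 1) := mul_comm _ _
          _ ≤ N := hN2
      have y3 : Y0 g ≤ Y := by
        refine le_trans ?_ y1
        rw [hYs]
        exact single_le_sum (f := Y0) (fun _ _ => Nat.zero_le _) (mem_range.2 (by omega))
      have h1 := hY0 g hg0 Y y3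
      obtain ⟨X, hX⟩ : ∃ X, X = 2 * Y + 1 := ⟨_, rfl⟩
      rw [← hX] at h1
      have x3 : 3 ≤ X := by omega
      have xN : X ≤ 3 * N := by
        have : Y ≤ N := by
          rw [hY]
          exact Nat.div_le_self _ _
        omega
      have x1 : X ≤ H ^ 7 := by
        calc X ≤ X ^ 6 := Nat.le_self_pow (by norm_num) _
          _ ≤ (3 * N) ^ 6 := Nat.pow_le_pow_left xN 6
          _ = 3 ^ 6 * N ^ 6 := mul_pow _ _ _
          _ ≤ 3 ^ 6 * (14 ^ 6 * H) := Nat.mul_le_mul_left _ hNH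
          _ = K * H := by
              rw [hK]
              ring
          _ ≤ H * H := Nat.mul_le_mul_right _ (by omega)
          _ = H ^ 2 := by ring
          _ ≤ H ^ 7 := Nat.pow_le_pow_right (by omega) (by norm_num)
      have x2 : H ≤ X ^ 7 := by
        have h2 : N ≤ G * X := by
          have h3 : N < g * (Y + 1) := by
            rw [hY]
            exact Nat.lt_mul_div_succ N hg0
          calc N ≤ g * (Y + 1) := h3.le
            _ ≤ G * X := Nat.mul_le_mul hgG (by omega)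
        calc H ≤ N ^ 6 := hHN
          _ ≤ (G * X) ^ 6 := Nat.pow_le_pow_left h2 6
          _ = G ^ 6 * X ^ 6 := mul_pow _ _ _
          _ ≤ X * X ^ 6 := Nat.mul_le_mul_right _ (by omega)
          _ = X ^ 7 := by ring
      have hsub : Tg D δ N H g ⊆ (Icc (-(Y : ℤ)) Y ×ˢ Icc (-(Y : ℤ)) Y).filter
          (fun t : ℤ × ℤ => IsCoprime t.1 t.2 ∧
          ¬ Ok (δ / 2) (X : ℝ) (WI (D * (g : ℤ) * t.1) (D * (g : ℤ) * t.2))) := by
        intro t ht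
        unfold Tg at ht
        rw [mem_filter, ← hY] at ht
        rw [mem_filter]
        refine ⟨ht.1, ht.2.1, fun hok => ht.2.2 ?_⟩
        refine ok_of (by exact_mod_cast x3) ?_ (by exact_mod_cast x1) (by exact_mod_cast x2) hδ
          hb hok
        have : 3 ≤ H := by omega
        exact_mod_cast this
      have h2 : ((Tg D δ N H g).card : ℝ) ≤ ε / 36 * (X : ℝ) ^ 2 :=
        (Nat.cast_le.2 (card_le_card hsub)).trans h1
      have h3 := width hg0 hgN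
      rw [← hY, ← hX] at h3
      calc ((Tg D δ N H g).card : ℝ) ≤ ε / 36 * (X : ℝ) ^ 2 := h2
        _ ≤ ε / 36 * (9 * ((N : ℝ) ^ 2 * ((g : ℝ) ^ 2)⁻¹)) :=
            mul_le_mul_of_nonneg_left h3 (by positivity)
        _ = _ := by ring
    · rw [if_neg hgG]
      refine (Tg_card D hg0 hgN).trans (le_of_eq ?_)
      ring
  have h1 : (((Icc (-(N : ℤ)) N ×ˢ Icc (-(N : ℤ)) N).filter (fun p : ℤ × ℤ => p ≠ 0 ∧
      ¬ Ok δ (H : ℝ) (WI (D * p.1) (D * p.2)))).card : ℝ) ≤ ∑ g ∈ Ioc 0 N, ((Tg D δ N H g).card : ℝ) := by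
    exact_mod_cast decomp D δ N H
  have h2 := sum_sq G N hG0 hGN (ε / 4) 9 (by positivity) (by norm_num)
  have h3 : 9 / (G : ℝ) ≤ ε / 2 := by
    rw [div_le_iff₀ (by linarith)]
    have h4 : 18 / ε * ε ≤ G * ε := mul_le_mul_of_nonneg_right hGe hε.le
    rw [div_mul_cancel₀ _ hε.ne'] at h4
    linarith
  calc _ ≤ ∑ g ∈ Ioc 0 N, ((Tg D δ N H g).card : ℝ) := h1
    _ ≤ ∑ g ∈ Ioc 0 N, (if g ≤ G then ε / 4 else 9) * ((g : ℝ) ^ 2)⁻¹ * (N : ℝ) ^ 2 :=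
        sum_le_sum key
    _ = (∑ g ∈ Ioc 0 N, (if g ≤ G then ε / 4 else 9) * ((g : ℝ) ^ 2)⁻¹) * (N : ℝ) ^ 2 := by
        rw [sum_mul]
    _ ≤ (2 * (ε / 4) + 9 / G) * (N : ℝ) ^ 2 := mul_le_mul_of_nonneg_right h2 (by positivity)
    _ ≤ ε * (N : ℝ) ^ 2 := by
        apply mul_le_mul_of_nonneg_right _ (by positivity)
        linarith

lemma sbWD {A B e q : ℤ} (hA : A = q ^ 2 - 3 * e ^ 2) (hB : B = 2 * e ^ 3 - q ^ 2 * e) :
    Sb (2 : ℚ) (-(4 * (D : ℚ) * e)) (Sh (D ^ 2 * A) (D ^ 3 * B))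
      (WI (D * (3 * e + 2 * q)) (D * (3 * e - 2 * q))) := by
  refine ⟨two_ne_zero, rfl, rfl, rfl, rfl, ?_, ?_, ?_⟩
  · change 3 * (-(4 * (D : ℚ) * e)) + 2 * (((D * (3 * e + 2 * q) : ℤ) : ℚ) +
      ((D * (3 * e - 2 * q) : ℤ) : ℚ)) = 2 ^ 2 * 0
    push_cast
    ring
  · change 3 * (-(4 * (D : ℚ) * e)) ^ 2 + 2 * (2 * (((D * (3 * e + 2 * q) : ℤ) : ℚ) +
      ((D * (3 * e - 2 * q) : ℤ) : ℚ))) * (-(4 * (D : ℚ) * e)) +
      (((D * (3 * e + 2 * q) : ℤ) : ℚ) - ((D * (3 * e - 2 * q) : ℤ) : ℚ)) ^ 2 =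
      2 ^ 4 * ((D ^ 2 * A : ℤ) : ℚ)
    rw [hA]
    push_cast
    ring
  · change (-(4 * (D : ℚ) * e)) ^ 3 + (2 * (((D * (3 * e + 2 * q) : ℤ) : ℚ) +
      ((D * (3 * e - 2 * q) : ℤ) : ℚ))) * (-(4 * (D : ℚ) * e)) ^ 2 +
      (((D * (3 * e + 2 * q) : ℤ) : ℚ) - ((D * (3 * e - 2 * q) : ℤ) : ℚ)) ^ 2 *
      (-(4 * (D : ℚ) * e)) + 0 = 2 ^ 6 * ((D ^ 3 * B : ℤ) : ℚ)
    rw [hB]
    push_cast
    ring

lemma ok_df {δ X : ℝ} {H : ℕ} {c : ℤ × ℤ} (hc : c ∈ Fm H)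
    (h : Ok δ X (WI (D * (df c).1) (D * (df c).2))) :
    Ok δ X (Sh (D ^ 2 * c.1) (D ^ 3 * c.2)) := by
  obtain ⟨k, h1, h2⟩ := h
  refine ⟨k, h1, ?_⟩
  obtain ⟨h3, h4⟩ := par_spec hc
  have S := sbWD D h3 h4
  have hf : Finite {x : Sha (WI (D * (df c).1) (D * (df c).2)) // x + x = 0} := by
    apply Nat.finite_of_card_ne_zero
    rw [h2]
    positivity
  rw [← h2]
  exact card_iso S hf

open Classical in
/-- **almost all curves of the family** -/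
theorem fam (hD : D ≠ 0) (δ ε : ℝ) (hδ : 0 < δ) (hε : 0 < ε) : ∃ H0 : ℕ, ∀ H : ℕ, H0 ≤ H →
    (((Fm H).filter (fun c => ¬ Ok δ (H : ℝ) (Sh (D ^ 2 * c.1) (D ^ 3 * c.2)))).card : ℝ) ≤
      ε * ((Fm H).card : ℝ) := by
  obtain ⟨C4, N1, hC4, hlow⟩ := Fm_lower
  obtain ⟨N0, hN0⟩ := box D hD δ (ε / C4) hδ (by positivity)
  refine ⟨(N0 + N1 + 1) ^ 6, fun H hH => ?_⟩
  obtain ⟨M, hM0, hM⟩ : ∃ M : ℝ, 0 ≤ M ∧ M ^ 6 = H := by
    refine ⟨(H : ℝ) ^ ((1 : ℝ) / 6), by positivity, ?_⟩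
    rw [← Real.rpow_natCast, ← Real.rpow_mul (Nat.cast_nonneg H)]
    norm_num
  have hM1 : (N0 : ℝ) + N1 + 1 ≤ M := by
    have : ((N0 : ℝ) + N1 + 1) ^ 6 ≤ M ^ 6 := by
      rw [hM]
      exact_mod_cast hH
    exact (pow_le_pow_iff_left₀ (by positivity) hM0 (by norm_num)).1 this
  have hn0 : (0 : ℝ) ≤ N0 := Nat.cast_nonneg _
  have hn1 : (0 : ℝ) ≤ N1 := Nat.cast_nonneg _
  obtain ⟨N, hN⟩ : ∃ N : ℕ, N = ⌊14 * M⌋₊ := ⟨_, rfl⟩
  have a1 : (N : ℝ) ≤ 14 * M := by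
    rw [hN]
    exact Nat.floor_le (by linarith)
  have a2 : 14 * M < N + 1 := by
    rw [hN]
    exact Nat.lt_floor_add_one _
  have a3 : M ≤ N := by linarith
  have a4 : N0 + N1 ≤ N := by
    have : ((N0 + N1 : ℕ) : ℝ) ≤ N := by
      push_cast
      linarith
    exact_mod_cast this
  have a5 : N ^ 6 ≤ 14 ^ 6 * H := by
    have h1 : (N : ℝ) ^ 6 ≤ (14 * M) ^ 6 := pow_le_pow_left₀ (Nat.cast_nonneg _) a1 6
    rw [mul_pow, hM] at h1
    exact_mod_cast h1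
  have a6 : H ≤ N ^ 6 := by
    have h1 : M ^ 6 ≤ (N : ℝ) ^ 6 := pow_le_pow_left₀ hM0 a3 6
    rw [hM] at h1
    exact_mod_cast h1
  have h1 := hN0 N H (by omega) a5 a6
  have h2 := hlow N H (by omega) a5
  have key : ∀ x : ℤ, x.natAbs ^ 6 ≤ 14 ^ 6 * H → x ∈ Icc (-(N : ℤ)) N := by
    intro x hx
    have h4 : ((x.natAbs : ℕ) : ℝ) ^ 6 ≤ (14 * M) ^ 6 := by
      rw [mul_pow, hM]
      exact_mod_cast hx
    have h5 : ((x.natAbs : ℕ) : ℝ) ≤ 14 * M :=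
      (pow_le_pow_iff_left₀ (Nat.cast_nonneg _) (by linarith) (by norm_num)).1 h4
    have h6 : x.natAbs ≤ N := by
      rw [hN]
      exact Nat.le_floor h5
    rw [mem_Icc]
    omega
  have h3 : ((Fm H).filter (fun c => ¬ Ok δ (H : ℝ) (Sh (D ^ 2 * c.1) (D ^ 3 * c.2)))).card ≤
      ((Icc (-(N : ℤ)) N ×ˢ Icc (-(N : ℤ)) N).filter (fun p : ℤ × ℤ => p ≠ 0 ∧
      ¬ Ok δ (H : ℝ) (WI (D * p.1) (D * p.2)))).card := by
    refine card_le_card_of_injOn df (fun c hc => ?_)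
      ((df_inj H).mono fun c hc => (mem_filter.1 (mem_coe.1 hc)).1)
    obtain ⟨hcF, hok⟩ := mem_filter.1 (mem_coe.1 hc)
    obtain ⟨⟨n1, -, -⟩, b1, b2⟩ := df_bd H c hcF
    rw [mem_coe, mem_filter, mem_product]
    exact ⟨⟨key _ b1, key _ b2⟩, fun h0 => n1 (by rw [h0]; rfl), fun h0 => hok (ok_df D hcF h0)⟩
  calc (((Fm H).filter (fun c => ¬ Ok δ (H : ℝ) (Sh (D ^ 2 * c.1) (D ^ 3 * c.2)))).card : ℝ) ≤
        (((Icc (-(N : ℤ)) N ×ˢ Icc (-(N : ℤ)) N).filter (fun p : ℤ × ℤ => p ≠ 0 ∧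
        ¬ Ok δ (H : ℝ) (WI (D * p.1) (D * p.2)))).card : ℝ) := Nat.cast_le.2 h3
    _ ≤ ε / C4 * (N : ℝ) ^ 2 := h1
    _ ≤ ε / C4 * (C4 * ((Fm H).card : ℝ)) := mul_le_mul_of_nonneg_left h2 (by positivity)
    _ = ε * ((Fm H).card : ℝ) := by
        field_simp

end Pool.Agent.Q17.LS.TW
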